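import Mathlib

/-! Elementary tools: finite Ramsey theorem, a Schur test, an approximate Bessel inequality,
rounding of inner products. -/

namespace Pool.Agent.MP_6cd9e0_an.H46

open Finset
open scoped RealInnerProductSpace

theorem pre_ramsey (c m : ℕ) : ∃ N : ℕ, ∀ {V C : Type} [DecidableEq V] (s : Finset V)
    (col : V → V → C) (S : Finset C), S.card ≤ c → (∀ a ∈ s, ∀ b ∈ s, a ≠ b → col a b ∈ S) →
    (∀ a b, col a b = col b a) → N ≤ s.card →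
    ∃ t ⊆ s, t.card = m ∧ ∃ κ : V → C, (∀ a ∈ t, κ a ∈ S) ∧
      ∀ a ∈ t, ∀ b ∈ t, a ≠ b → col a b = κ a ∨ col a b = κ b := by
  induction m with
  | zero => exact ⟨0, fun s col S _ _ _ _ => ⟨∅, by simp, rfl, fun a => col a a, by simp, by simp⟩⟩
  | succ m ih =>
    obtain ⟨N, hN⟩ := ih
    refine ⟨c * N + 2, fun {V C} _ s col S hS hcol hsym hs => ?_⟩
    classical
    obtain ⟨a, ha⟩ : s.Nonempty := card_pos.mp (by omega)
    have h1 : S.card * N < (s.erase a).card := by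
      rw [card_erase_of_mem ha]
      have := Nat.mul_le_mul_right N hS
      omega
    obtain ⟨k, hk, hk2⟩ := exists_lt_card_fiber_of_mul_lt_card_of_maps_to
      (f := fun b => col a b) (t := S)
      (fun b hb => hcol a ha b (mem_of_mem_erase hb) (ne_of_mem_erase hb).symm) h1
    obtain ⟨t, ht, htc, κ, hκ, hκ2⟩ := hN ((s.erase a).filter fun b => col a b = k) col S hS
      (fun x hx y hy => hcol x (mem_of_mem_erase (mem_filter.mp hx).1) y
        (mem_of_mem_erase (mem_filter.mp hy).1)) hsym hk2.le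
    have hat : a ∉ t := fun h => by simpa using ht h
    have hne : ∀ b ∈ t, b ≠ a := fun b hb h => hat (h ▸ hb)
    refine ⟨insert a t, ?_, by rw [card_insert_of_notMem hat, htc], Function.update κ a k, ?_, ?_⟩
    · intro x hx
      rcases mem_insert.mp hx with rfl | hx
      · exact ha
      · exact mem_of_mem_erase (mem_filter.mp (ht hx)).1
    · intro x hx
      rcases mem_insert.mp hx with rfl | hx
      · simpa using hk
      · rw [Function.update_of_ne (hne x hx)]; exact hκ x hx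
    · intro x hx y hy hxy
      rcases mem_insert.mp hx with rfl | hx' <;> rcases mem_insert.mp hy with rfl | hy'
      · exact absurd rfl hxy
      · left; simpa using (mem_filter.mp (ht hy')).2
      · right; rw [hsym]; simpa using (mem_filter.mp (ht hx')).2
      · rw [Function.update_of_ne (hne x hx'), Function.update_of_ne (hne y hy')]
        exact hκ2 x hx' y hy' hxy

theorem ramsey (c n : ℕ) : ∃ N : ℕ, ∀ {V C : Type} [DecidableEq V] (s : Finset V)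
    (col : V → V → C) (S : Finset C), S.card ≤ c → (∀ a ∈ s, ∀ b ∈ s, a ≠ b → col a b ∈ S) →
    (∀ a b, col a b = col b a) → N ≤ s.card →
    ∃ t ⊆ s, t.card = n ∧ ∃ k : C, ∀ a ∈ t, ∀ b ∈ t, a ≠ b → col a b = k := by
  obtain ⟨N, hN⟩ := pre_ramsey c (c * n + 1)
  refine ⟨N, fun {V C} _ s col S hS hcol hsym hs => ?_⟩
  classical
  obtain ⟨t, ht, htc, κ, hκ, hκ2⟩ := hN s col S hS hcol hsym hs
  have h1 : S.card * n < t.card := by
    have := Nat.mul_le_mul_right n hS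
    omega
  obtain ⟨k, -, hk2⟩ := exists_lt_card_fiber_of_mul_lt_card_of_maps_to (f := κ) (t := S) hκ h1
  obtain ⟨u, hu, huc⟩ := exists_subset_card_eq hk2.le
  refine ⟨u, fun x hx => ht (mem_filter.mp (hu hx)).1, huc, k, fun a ha b hb hab => ?_⟩
  have h2 := mem_filter.mp (hu ha)
  have h3 := mem_filter.mp (hu hb)
  rcases hκ2 a h2.1 b h3.1 hab with h | h
  · rw [h, h2.2]
  · rw [h, h3.2]

/-- Schur test for a sparse bounded matrix. -/
theorem schur {α β : Type} (s : Finset α) (t : Finset β) (m : α → β → ℝ) (x : β → ℝ)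
    (a b : ℕ) (c : ℝ) (hc : ∀ i ∈ s, ∀ j ∈ t, |m i j| ≤ c)
    (ha : ∀ i ∈ s, (t.filter fun j => m i j ≠ 0).card ≤ a)
    (hb : ∀ j ∈ t, (s.filter fun i => m i j ≠ 0).card ≤ b) :
    ∑ i ∈ s, (∑ j ∈ t, x j * m i j) ^ 2 ≤ a * b * c ^ 2 * ∑ j ∈ t, x j ^ 2 := by
  classical
  have h1 : ∀ i ∈ s, (∑ j ∈ t, x j * m i j) ^ 2 ≤
      a * c ^ 2 * ∑ j ∈ t, if m i j ≠ 0 then x j ^ 2 else 0 := by
    intro i hi
    have e : ∑ j ∈ t, x j * m i j = ∑ j ∈ t.filter fun j => m i j ≠ 0, x j * m i j := by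
      rw [sum_filter]
      refine sum_congr rfl fun j _ => ?_
      split_ifs with h
      · rfl
      · simp [not_not.mp h]
    rw [e, ← sum_filter]
    refine (sq_sum_le_card_mul_sum_sq).trans ?_
    have h2 : ∑ j ∈ t.filter fun j => m i j ≠ 0, (x j * m i j) ^ 2
        ≤ c ^ 2 * ∑ j ∈ t.filter fun j => m i j ≠ 0, x j ^ 2 := by
      rw [mul_sum]
      refine sum_le_sum fun j hj => ?_
      have := sq_le_sq' (neg_le_of_abs_le (hc i hi j (mem_filter.mp hj).1))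
        (le_of_abs_le (hc i hi j (mem_filter.mp hj).1))
      nlinarith [sq_nonneg (x j)]
    have h3 : ((t.filter fun j => m i j ≠ 0).card : ℝ) ≤ a := by exact_mod_cast ha i hi
    rw [mul_assoc]
    gcongr
  refine (sum_le_sum h1).trans ?_
  rw [← mul_sum, sum_comm, show (a : ℝ) * b * c ^ 2 * ∑ j ∈ t, x j ^ 2
    = a * c ^ 2 * ∑ j ∈ t, b * x j ^ 2 by rw [← mul_sum]; ring]
  gcongr with j hj
  rw [← sum_filter, sum_const, nsmul_eq_mul]
  have h3 : ((s.filter fun i => m i j ≠ 0).card : ℝ) ≤ b := by exact_mod_cast hb j hj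
  gcongr

variable {E : Type} [NormedAddCommGroup E] [InnerProductSpace ℝ E]

/-- Approximate Bessel inequality. -/
theorem bessel {α : Type} (W : Finset α) (ρ : α → E) (P ε : ℝ) (hε : 0 ≤ ε) (hP : 0 ≤ P)
    (h1 : ∀ w ∈ W, ‖ρ w‖ ^ 2 ≤ P) (h2 : ∀ v ∈ W, ∀ w ∈ W, v ≠ w → |⟪ρ v, ρ w⟫| ≤ ε) (u : E) :
    ∑ w ∈ W, ⟪u, ρ w⟫ ^ 2 ≤ ‖u‖ ^ 2 * (P + W.card * ε) := by
  classical
  set S := ∑ w ∈ W, ⟪u, ρ w⟫ ^ 2 with hS
  set z := ∑ w ∈ W, ⟪u, ρ w⟫ • ρ w with hz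
  have hS0 : 0 ≤ S := sum_nonneg fun _ _ => sq_nonneg _
  have e1 : S = ⟪u, z⟫ := by
    rw [hz, inner_sum]
    exact sum_congr rfl fun w _ => by rw [inner_smul_right]; ring
  have e2 : ‖z‖ ^ 2 ≤ (P + W.card * ε) * S := by
    rw [← real_inner_self_eq_norm_sq, hz, sum_inner]
    have : ∀ v ∈ W, ⟪⟪u, ρ v⟫ • ρ v, ∑ w ∈ W, ⟪u, ρ w⟫ • ρ w⟫
        ≤ P * ⟪u, ρ v⟫ ^ 2 + ∑ w ∈ W, ε * ((⟪u, ρ v⟫ ^ 2 + ⟪u, ρ w⟫ ^ 2) / 2) := by
      intro v hv
      rw [inner_sum, ← add_sum_erase _ _ hv, ← add_sum_erase _ _ hv]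
      have h3 : ⟪⟪u, ρ v⟫ • ρ v, ⟪u, ρ v⟫ • ρ v⟫ ≤ P * ⟪u, ρ v⟫ ^ 2 := by
        rw [inner_smul_left, inner_smul_right, real_inner_self_eq_norm_sq]
        simp only [conj_trivial]
        nlinarith [h1 v hv, sq_nonneg ⟪u, ρ v⟫]
      have h4 : ∑ w ∈ W.erase v, ⟪⟪u, ρ v⟫ • ρ v, ⟪u, ρ w⟫ • ρ w⟫
          ≤ ∑ w ∈ W.erase v, ε * ((⟪u, ρ v⟫ ^ 2 + ⟪u, ρ w⟫ ^ 2) / 2) := by
        refine sum_le_sum fun w hw => ?_
        rw [inner_smul_left, inner_smul_right]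
        simp only [conj_trivial]
        have h5 := h2 v hv w (mem_of_mem_erase hw) (ne_of_mem_erase hw).symm
        have h6 := abs_le.mp h5
        nlinarith [sq_nonneg (⟪u, ρ v⟫ + ⟪u, ρ w⟫), sq_nonneg (⟪u, ρ v⟫ - ⟪u, ρ w⟫),
          mul_nonneg (sub_nonneg.mpr h6.2) (sq_nonneg (⟪u, ρ v⟫ + ⟪u, ρ w⟫)),
          mul_nonneg (by linarith [h6.1] : 0 ≤ ⟪ρ v, ρ w⟫ + ε) (sq_nonneg (⟪u, ρ v⟫ - ⟪u, ρ w⟫))]
      have h7 : 0 ≤ ε * ((⟪u, ρ v⟫ ^ 2 + ⟪u, ρ v⟫ ^ 2) / 2) := by positivity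
      linarith
    refine (sum_le_sum this).trans (le_of_eq ?_)
    simp only [sum_add_distrib, ← mul_sum, add_div, ← sum_div, sum_const, nsmul_eq_mul, ← hS]
    ring
  have e3 : S ^ 2 ≤ ‖u‖ ^ 2 * ‖z‖ ^ 2 := by
    rw [e1, ← mul_pow]
    exact sq_le_sq' (neg_le_of_abs_le (abs_real_inner_le_norm u z))
      (le_of_abs_le (abs_real_inner_le_norm u z))
  rcases hS0.eq_or_lt with h | h
  · rw [← h]; positivity
  · have : S * S ≤ (‖u‖ ^ 2 * (P + W.card * ε)) * S := by nlinarith [sq_nonneg ‖u‖]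
    exact le_of_mul_le_mul_right this h

/-- The rounded inner product. -/
noncomputable def r (u w : E) : ℤ := round ⟪u, w⟫

theorem r_comm (u w : E) : r u w = r w u := by unfold r; rw [real_inner_comm]

theorem r_eq {u w : E} {k : ℤ} (h : |⟪u, w⟫ - k| < 1 / 2) : r u w = k := by
  unfold r
  rw [round_eq_iff]
  have := abs_lt.mp h
  constructor <;> linarith [this.1, this.2]

theorem near_r {u w : E} {k : ℤ} {η : ℝ} (h : |⟪u, w⟫ - k| ≤ η) : |⟪u, w⟫ - r u w| ≤ η :=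
  (round_le _ k).trans h

theorem r_near (u w : E) : |⟪u, w⟫ - r u w| ≤ 1 / 2 := abs_sub_round _

theorem r_le {u w : E} {k : ℤ} (h : ⟪u, w⟫ < k + 1 / 2) : r u w ≤ k := by
  have := round_le_add_half ⟪u, w⟫
  have h2 : ((r u w : ℤ) : ℝ) < k + 1 := by unfold r; linarith
  have h3 : r u w < k + 1 := by exact_mod_cast h2
  omega

theorem r_self_nonneg (u : E) : 0 ≤ r u u := by
  have := sub_half_lt_round ⟪u, u⟫
  have h1 : 0 ≤ ⟪u, u⟫ := real_inner_self_nonneg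
  have h2 : (-1 : ℝ) < ((r u u : ℤ) : ℝ) := by unfold r; linarith
  have h3 : -1 < r u u := by exact_mod_cast h2
  omega

@[simp] theorem r_zero_right (u : E) : r u 0 = 0 := by simp [r]

@[simp] theorem r_zero_left (u : E) : r 0 u = 0 := by simp [r]

theorem half_le_of_r_ne {u w : E} (h : r u w ≠ 0) : 1 / 4 ≤ ⟪u, w⟫ ^ 2 := by
  by_contra hc
  apply h
  apply r_eq
  have : |⟪u, w⟫| < 1 / 2 := by
    apply abs_lt_of_sq_lt_sq _ (by norm_num)
    linarith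
  simpa using this

/-- A set of vectors whose inner products are within `η` of integers, of rounded norm `≤ R`. -/
def Good (η : ℝ) (R : ℕ) (U : Set E) : Prop :=
  (∀ u ∈ U, ∀ w ∈ U, |⟪u, w⟫ - r u w| ≤ η) ∧ ∀ u ∈ U, r u u ≤ R

theorem Good.mono {η η' : ℝ} {R : ℕ} {U : Set E} (h : Good η R U) (hη : η ≤ η') : Good η' R U :=
  ⟨fun u hu w hw => (h.1 u hu w hw).trans hη, h.2⟩

theorem normsq_le {u : E} {R : ℤ} (h : r u u ≤ R) : ‖u‖ ^ 2 ≤ R + 1 := by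
  have h1 := abs_le.mp (r_near u u)
  have h2 : ((r u u : ℤ) : ℝ) ≤ R := by exact_mod_cast h
  rw [real_inner_self_eq_norm_sq] at h1
  linarith [h1.2]

theorem Good.normsq {η : ℝ} {R : ℕ} {U : Set E} (h : Good η R U) {u : E} (hu : u ∈ U) :
    ‖u‖ ^ 2 ≤ R + 1 := by
  simpa using normsq_le (h.2 u hu)

theorem abs_inner_le {u w : E} {P : ℝ} (hu : ‖u‖ ^ 2 ≤ P) (hw : ‖w‖ ^ 2 ≤ P) : |⟪u, w⟫| ≤ P := by
  refine (abs_real_inner_le_norm u w).trans ?_
  nlinarith [sq_nonneg (‖u‖ - ‖w‖)]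

theorem Good.abs_r {η : ℝ} {R : ℕ} {U : Set E} (h : Good η R U) {u w : E} (hu : u ∈ U)
    (hw : w ∈ U) : |r u w| ≤ R + 1 := by
  have h1 := abs_le.mp (abs_inner_le (h.normsq hu) (h.normsq hw))
  have h2 := abs_le.mp (r_near u w)
  have h3 : ((r u w : ℤ) : ℝ) < R + 2 := by linarith [h1.2, h2.1]
  have h4 : (-(R + 2) : ℝ) < ((r u w : ℤ) : ℝ) := by linarith [h1.1, h2.2]
  have h5 : r u w < R + 2 := by exact_mod_cast h3
  have h6 : -((R : ℤ) + 2) < r u w := by exact_mod_cast h4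
  rw [abs_le]; omega

theorem near_sum {α : Type} (s : Finset α) (u : E) (g : α → E) {η : ℝ}
    (h : ∀ a ∈ s, |⟪u, g a⟫ - r u (g a)| ≤ η) :
    |⟪u, ∑ a ∈ s, g a⟫ - ((∑ a ∈ s, r u (g a) : ℤ) : ℝ)| ≤ s.card * η := by
  rw [inner_sum, Int.cast_sum, ← sum_sub_distrib]
  refine (abs_sum_le_sum_abs _ _).trans ?_
  simpa using sum_le_card_nsmul s _ η h

end Pool.Agent.MP_6cd9e0_an.H46
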