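import Mathlib
import Pool.Agent.MP_6cd9e0_an.H46.Basic

/-! Averages of almost equiangular families. -/

namespace Pool.Agent.MP_6cd9e0_an.H46

open Finset
open scoped RealInnerProductSpace

variable {E : Type} [NormedAddCommGroup E] [InnerProductSpace ℝ E]

theorem good_ext {η : ℝ} {R : ℕ} {U S : Set E} (φ : ℝ → ℝ) (hU : Good η R U)
    (hS : ∀ s ∈ S, r s s ≤ R ∧ ∀ u : E, ‖u‖ ^ 2 ≤ R + 1 → ∀ δ : ℝ,
      (∀ w ∈ U, |⟪u, w⟫ - r u w| ≤ δ) → |⟪u, s⟫ - r u s| ≤ φ δ)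
    (h1 : η ≤ φ η) (h2 : φ η ≤ φ (φ η)) : Good (φ (φ η)) R (U ∪ S) := by
  have key : ∀ u ∈ U, ∀ s ∈ S, |⟪u, s⟫ - r u s| ≤ φ η := fun u hu s hs =>
    (hS s hs).2 u (hU.normsq hu) η (hU.1 u hu)
  have key' : ∀ s ∈ S, ∀ u ∈ U, |⟪s, u⟫ - r s u| ≤ φ η := fun s hs u hu => by
    rw [real_inner_comm, r_comm]; exact key u hu s hs
  refine ⟨?_, ?_⟩
  · rintro u (hu | hu) w (hw | hw)
    · exact (hU.1 u hu w hw).trans (h1.trans h2)
    · exact (key u hu w hw).trans h2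
    · exact (key' u hu w hw).trans h2
    · exact (hS w hw).2 u (by simpa using normsq_le (hS u hu).1) _ (key' u hu)
  · rintro u (hu | hu)
    · exact hU.2 u hu
    · exact (hS u hu).1

/-- The average of a finite family. -/
noncomputable def avg {α : Type} (W : Finset α) (h : α → E) : E :=
  (W.card : ℝ)⁻¹ • ∑ w ∈ W, h w

theorem inner_avg {α : Type} (W : Finset α) (h : α → E) (u : E) :
    ⟪u, avg W h⟫ = (W.card : ℝ)⁻¹ * ∑ w ∈ W, ⟪u, h w⟫ := by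
  rw [avg, inner_smul_right, inner_sum]

theorem mean_le {α : Type} {W : Finset α} (hW : 0 < W.card) (φ : α → ℝ) (v : α) {Q B : ℝ}
    (hB : 0 ≤ B) (h1 : ∀ w ∈ W, w ≠ v → φ w ≤ Q) (h2 : φ v ≤ Q + B) :
    (W.card : ℝ)⁻¹ * ∑ w ∈ W, φ w ≤ Q + B / W.card := by
  classical
  have hN : (0 : ℝ) < W.card := by exact_mod_cast hW
  have : ∑ w ∈ W, φ w ≤ ∑ w ∈ W, (Q + if w = v then B else 0) := by
    refine sum_le_sum fun w hw => ?_
    split_ifs with h
    · rw [h]; exact h2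
    · simpa using h1 w hw h
  have h3 : ∑ w ∈ W, (Q + if w = v then B else 0) ≤ W.card * Q + B := by
    rw [sum_add_distrib, sum_const, nsmul_eq_mul, sum_ite_eq']
    split_ifs <;> linarith
  rw [inv_mul_le_iff₀ hN, mul_add, mul_div_cancel₀ _ hN.ne']
  linarith

theorem mean_le' {α : Type} {W : Finset α} (hW : 0 < W.card) (φ : α → ℝ) {Q : ℝ}
    (h1 : ∀ w ∈ W, φ w ≤ Q) : (W.card : ℝ)⁻¹ * ∑ w ∈ W, φ w ≤ Q := by
  have hN : (0 : ℝ) < W.card := by exact_mod_cast hW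
  rw [inv_mul_le_iff₀ hN]
  simpa using sum_le_card_nsmul W φ Q h1

theorem normsq_avg {α : Type} {W : Finset α} (hW : 0 < W.card) (h : α → E) {Q : ℝ}
    (h1 : ∀ v ∈ W, ⟪h v, avg W h⟫ ≤ Q) : ‖avg W h‖ ^ 2 ≤ Q := by
  rw [← real_inner_self_eq_norm_sq, inner_avg]
  exact mean_le' hW _ fun w hw => by rw [real_inner_comm]; exact h1 w hw

theorem normsq_avg_le {α : Type} {W : Finset α} (hW : 0 < W.card) (h : α → E) {Q : ℝ}
    (h1 : ∀ v ∈ W, ‖h v‖ ^ 2 ≤ Q) : ‖avg W h‖ ^ 2 ≤ Q :=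
  normsq_avg hW h fun v hv => by
    rw [inner_avg]
    exact mean_le' hW _ fun w hw => le_of_abs_le (abs_inner_le (h1 v hv) (h1 w hw))

theorem center {α : Type} {W : Finset α} (hW : 0 < W.card) (h : α → E) {P ε : ℝ} {k : ℤ}
    (hP : 0 ≤ P) (hk : |(k : ℝ)| ≤ P) (hε : 2 * P / W.card ≤ ε)
    (h1 : ∀ w ∈ W, ‖h w‖ ^ 2 ≤ P) (h2 : ∀ v ∈ W, ∀ w ∈ W, v ≠ w → |⟪h v, h w⟫ - k| ≤ ε) :
    (∀ v ∈ W, |⟪h v, avg W h⟫ - k| ≤ 2 * ε) ∧ |⟪avg W h, avg W h⟫ - k| ≤ 2 * ε ∧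
      ∀ u : E, ‖u‖ ^ 2 ≤ P → ∃ w ∈ W, (⟪u, avg W h⟫ - ⟪u, h w⟫) ^ 2 ≤ 11 * P * ε := by
  have hN : (0 : ℝ) < W.card := by exact_mod_cast hW
  have hε0 : 0 ≤ ε := le_trans (by positivity) hε
  have hk' := abs_le.mp hk
  have A : ∀ v ∈ W, |⟪h v, avg W h⟫ - k| ≤ 2 * ε := by
    intro v hv
    have hv2 : ⟪h v, h v⟫ ≤ P := by rw [real_inner_self_eq_norm_sq]; exact h1 v hv
    have hv3 : 0 ≤ ⟪h v, h v⟫ := real_inner_self_nonneg
    have a1 := mean_le hW (fun w => ⟪h v, h w⟫) v (Q := k + ε) (B := 2 * P) (by positivity)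
      (fun w hw hwv => by linarith [(abs_le.mp (h2 v hv w hw hwv.symm)).2]) (by linarith [hk'.1])
    have a2 := mean_le hW (fun w => -⟪h v, h w⟫) v (Q := -k + ε) (B := 2 * P) (by positivity)
      (fun w hw hwv => by linarith [(abs_le.mp (h2 v hv w hw hwv.symm)).1]) (by linarith [hk'.2])
    rw [sum_neg_distrib, mul_neg] at a2
    rw [inner_avg, abs_le]
    constructor <;> linarith
  have B : |⟪avg W h, avg W h⟫ - k| ≤ 2 * ε := by
    have a1 := mean_le' hW (fun w => ⟪avg W h, h w⟫) (Q := k + 2 * ε)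
      (fun w hw => by rw [real_inner_comm]; linarith [(abs_le.mp (A w hw)).2])
    have a2 := mean_le' hW (fun w => -⟪avg W h, h w⟫) (Q := -k + 2 * ε)
      (fun w hw => by rw [real_inner_comm]; linarith [(abs_le.mp (A w hw)).1])
    rw [sum_neg_distrib, mul_neg] at a2
    rw [inner_avg, abs_le]
    constructor <;> linarith
  refine ⟨A, B, fun u hu => ?_⟩
  have ha := normsq_avg_le hW h h1
  have C := bessel W (fun w => avg W h - h w) (4 * P) (7 * ε) (by positivity) (by positivity)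
    (fun w hw => by
      have := norm_sub_le (avg W h) (h w)
      have h3 := h1 w hw
      nlinarith [norm_nonneg (avg W h - h w), norm_nonneg (avg W h), norm_nonneg (h w),
        sq_nonneg (‖avg W h‖ - ‖h w‖)])
    (fun v hv w hw hvw => by
      rw [inner_sub_left, inner_sub_right, inner_sub_right, real_inner_comm (h w) (avg W h)]
      have b1 := abs_le.mp (A v hv)
      have b2 := abs_le.mp (A w hw)
      have b3 := abs_le.mp B
      have b4 := abs_le.mp (h2 v hv w hw hvw)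
      rw [abs_le]
      constructor <;> linarith [b1.1, b1.2, b2.1, b2.2, b3.1, b3.2, b4.1, b4.2]) u
  by_contra hc
  push Not at hc
  have D : ∑ w ∈ W, (11 * P * ε) < ∑ w ∈ W, ⟪u, avg W h - h w⟫ ^ 2 :=
    sum_lt_sum_of_nonempty (card_pos.mp hW) fun w hw => by
      rw [inner_sub_right]; exact hc w hw
  rw [sum_const, nsmul_eq_mul] at D
  have h4 : 2 * P ≤ ε * W.card := by rwa [div_le_iff₀ hN] at hε
  have h5 : ‖u‖ ^ 2 * (4 * P + W.card * (7 * ε)) ≤ P * (4 * P + W.card * (7 * ε)) := by gcongr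
  nlinarith [mul_nonneg hP (mul_nonneg hε0 hN.le)]

end Pool.Agent.MP_6cd9e0_an.H46
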