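import Mathlib
import Pool.Agent.MP_6cd9e0_an.H46.Center

/-! One round of the splitting procedure. -/

namespace Pool.Agent.MP_6cd9e0_an.H46

open Finset
open scoped RealInnerProductSpace

variable {E : Type} [NormedAddCommGroup E] [InnerProductSpace ℝ E]

/-- State of the splitting procedure after `k` rounds. -/
structure St (M R k : ℕ) (η : ℝ) (U : Set E) (A : Finset E) (g : E → Finset ℕ → E) : Prop where
  good : Good η R U
  mem : ∀ v ∈ A, ∀ ω ⊆ range k, g v ω ∈ U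
  sum : ∀ v ∈ A, ∑ ω ∈ (range k).powerset, g v ω = v
  low : ∀ v ∈ A, ∀ S ⊂ range k, ‖∑ ω ∈ S.powerset, g v ω‖ ^ 2 ≤ M - 1 + η
  pot : ∀ v ∈ A, ∑ ω ∈ (range k).powerset, r (g v ω) (g v ω) ≤ M
  sep : ∀ v ∈ A, ∀ j' < k, ∀ j < j', ∃ ω ⊆ range k, j ∈ ω ∧ j' ∉ ω ∧ r (g v ω) (g v ω) ≠ 0
  top : ∀ v ∈ A, ‖v‖ ^ 2 ≤ R + 1
  far : ∀ v ∈ A, ∀ w ∈ A, v ≠ w → ⟪v, w⟫ ≤ M - 1 + η

/-- The vectors of `Z` do not see the pieces carrying one of the marks. -/
def Blind (k : ℕ) (G : Finset ℕ → E) (Z : Finset E) : Prop :=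
  ∃ j < k, ∀ ω ⊆ range k, j ∈ ω → ∀ z ∈ Z, r z (G ω) = 0

open Classical in
/-- Every small test set is blind for all but `D` members of `A`. -/
def Sparse (D R : ℕ) (A : Finset E) (kk : E → ℕ) (g : E → Finset ℕ → E) : Prop :=
  ∀ Z : Finset E, Z.card ≤ R → (∀ z ∈ Z, ‖z‖ ^ 2 ≤ R + 1) →
    (A.filter fun v => ¬ Blind (kk v) (g v) Z).card ≤ D

theorem St.stop {M R k : ℕ} {η : ℝ} {U : Set E} {A : Finset E} {g : E → Finset ℕ → E}
    (h : St M R k η U A g) (hk : 2 ^ M < k) : A = ∅ := by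
  classical
  rw [eq_empty_iff_forall_notMem]
  intro v hv
  set Ω := (range k).powerset.filter fun ω => r (g v ω) (g v ω) ≠ 0 with hΩ
  have h1 : Ω.card ≤ M := by
    have h2 : ∑ ω ∈ Ω, (1 : ℤ) ≤ ∑ ω ∈ Ω, r (g v ω) (g v ω) := sum_le_sum fun ω hω => by
      have := (mem_filter.mp hω).2
      have := r_self_nonneg (g v ω)
      omega
    have h3 : ∑ ω ∈ Ω, r (g v ω) (g v ω) ≤ ∑ ω ∈ (range k).powerset, r (g v ω) (g v ω) :=
      sum_le_sum_of_subset_of_nonneg (filter_subset _ _) fun ω _ _ => r_self_nonneg _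
    have h4 := h.pot v hv
    simp only [sum_const, nsmul_eq_mul, mul_one] at h2
    omega
  have h5 : (range k).card ≤ Ω.powerset.card := by
    refine card_le_card_of_injOn (fun j => Ω.filter fun ω => j ∈ ω) 
      (fun j _ => mem_coe.mpr (mem_powerset.mpr (filter_subset _ _))) ?_
    have key : ∀ j' < k, ∀ j < j', (Ω.filter fun ω => j ∈ ω) ≠ Ω.filter fun ω => j' ∈ ω := by
      intro j' hj' j hj e
      obtain ⟨ω, h1, h2, h3, h4⟩ := h.sep v hv j' hj' j hj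
      have : ω ∈ Ω.filter fun ω => j ∈ ω := by simp [hΩ, h1, h2, h4]
      rw [e] at this
      exact h3 (mem_filter.mp this).2
    intro a ha b hb e
    rcases lt_trichotomy a b with h | h | h
    · exact absurd e (key b (by simpa using hb) a h)
    · exact h
    · exact absurd e.symm (key a (by simpa using ha) b h)
  rw [card_range, card_powerset] at h5
  have := Nat.pow_le_pow_right (by norm_num : 0 < 2) h1
  omega

theorem leftover (R K N : ℕ) : ∃ D : ℕ, ∀ (ε : ℝ), 0 < N → ((R : ℝ) + 1) / N ≤ ε →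
    8 * 2 ^ K * R * (R + 1) * ε < 1 → ∀ k ≤ K, ∀ (E : Type) [NormedAddCommGroup E]
    [InnerProductSpace ℝ E] (U : Set E) (B : Finset E) (g : E → Finset ℕ → E), Good ε R U →
    (∀ v ∈ B, ∀ ω ⊆ range k, g v ω ∈ U) →
    (∀ W ⊆ B, W.card = N → ∀ α : Finset ℕ → ℤ,
      (∀ ω ⊆ range k, ∀ v ∈ W, ∀ w ∈ W, v ≠ w → r (g v ω) (g w ω) = α ω) →
      ∃ j < k, ∀ ω ⊆ range k, j ∈ ω → α ω = 0) →
    Sparse D R B (fun _ => k) g := by
  obtain ⟨D, hD⟩ := ramsey ((2 * R + 3) ^ 2 ^ K) N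
  refine ⟨D, fun ε hN hε1 hε2 k hk E _ _ U B g hU hmem hno Z hZ hZ2 => ?_⟩
  classical
  by_contra hc
  push Not at hc
  have hN' : (0 : ℝ) < N := by exact_mod_cast hN
  have hε0 : 0 ≤ ε := le_trans (by positivity) hε1
  obtain ⟨W, hW, hWc, α, hα⟩ := hD (C := ((range k).powerset → ℤ)) _
    (fun v w ω => r (g v ω) (g w ω))
    (Fintype.piFinset fun _ => Icc (-((R : ℤ) + 1)) (R + 1))
    (by
      rw [Fintype.card_piFinset, prod_const, card_univ, Fintype.card_coe, card_powerset,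
        card_range, Int.card_Icc]
      have : (((R : ℤ) + 1 + 1 - -((R : ℤ) + 1))).toNat = 2 * R + 3 := by omega
      rw [this]
      exact Nat.pow_le_pow_right (by omega) (Nat.pow_le_pow_right (by norm_num) hk))
    (fun a ha b hb _ => by
      rw [Fintype.mem_piFinset]
      intro ω
      have hω := mem_powerset.mp ω.2
      rw [mem_Icc, ← abs_le]
      exact hU.abs_r (hmem a (mem_filter.mp ha).1 ω hω) (hmem b (mem_filter.mp hb).1 ω hω))
    (fun a b => funext fun ω => r_comm _ _) hc.le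
  have hWB : W ⊆ B := fun v hv => (mem_filter.mp (hW hv)).1
  obtain ⟨j, hj, hj2⟩ := hno W hWB hWc
    (fun ω => if h : ω ∈ (range k).powerset then α ⟨ω, h⟩ else 0)
    (fun ω hω v hv w hw hvw => by
      rw [dif_pos (mem_powerset.mpr hω)]
      exact congrFun (hα v hv w hw hvw) ⟨ω, mem_powerset.mpr hω⟩)
  set Ω := (range k).powerset.filter fun ω => j ∈ ω with hΩ
  have h1 : ∀ w ∈ W, (1 / 4 : ℝ) ≤ ∑ ω ∈ Ω, ∑ z ∈ Z, ⟪z, g w ω⟫ ^ 2 := by
    intro w hw
    have h2 := (mem_filter.mp (hW hw)).2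
    unfold Blind at h2
    push Not at h2
    obtain ⟨ω, h3, h4, z, hz, h5⟩ := h2 j hj
    calc (1 / 4 : ℝ) ≤ ⟪z, g w ω⟫ ^ 2 := half_le_of_r_ne h5
      _ ≤ ∑ z ∈ Z, ⟪z, g w ω⟫ ^ 2 :=
        single_le_sum (f := fun z => ⟪z, g w ω⟫ ^ 2) (fun _ _ => sq_nonneg _) hz
      _ ≤ _ := single_le_sum (f := fun ω => ∑ z ∈ Z, ⟪z, g w ω⟫ ^ 2)
        (fun _ _ => sum_nonneg fun _ _ => sq_nonneg _) (by simp [hΩ, h3, h4])
  have h6 : ∀ ω ∈ Ω, ∀ z ∈ Z, ∑ w ∈ W, ⟪z, g w ω⟫ ^ 2 ≤ (R + 1) * (2 * N * ε) := by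
    intro ω hω z hz
    have h7 := mem_filter.mp hω
    have h8 := mem_powerset.mp h7.1
    have h9 := hj2 ω h8 h7.2
    simp only [dif_pos h7.1] at h9
    refine (bessel W (fun w => g w ω) (R + 1) ε hε0 (by positivity)
      (fun w hw => hU.normsq (hmem w (hWB hw) ω h8)) (fun v hv w hw hvw => ?_) z).trans ?_
    · have := hU.1 _ (hmem v (hWB hv) ω h8) _ (hmem w (hWB hw) ω h8)
      have e : r (g v ω) (g w ω) = 0 := (congrFun (hα v hv w hw hvw) ⟨ω, h7.1⟩).trans h9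
      simpa [e] using this
    · rw [hWc]
      rw [div_le_iff₀ hN'] at hε1
      gcongr
      · exact hZ2 z hz
      · linarith
  have h10 : ∑ w ∈ W, ∑ ω ∈ Ω, ∑ z ∈ Z, ⟪z, g w ω⟫ ^ 2
      ≤ 2 ^ K * (R * ((R + 1) * (2 * N * ε))) := by
    rw [sum_comm]
    have hΩc : (Ω.card : ℝ) ≤ 2 ^ K := by
      have : Ω.card ≤ 2 ^ K := (card_filter_le _ _).trans (by
        rw [card_powerset, card_range]; exact Nat.pow_le_pow_right (by norm_num) hk)
      exact_mod_cast this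
    refine (sum_le_card_nsmul _ _ (R * ((R + 1) * (2 * N * ε))) fun ω hω => ?_).trans ?_
    · rw [sum_comm]
      refine (sum_le_card_nsmul _ _ _ (h6 ω hω)).trans ?_
      rw [nsmul_eq_mul]
      have : (Z.card : ℝ) ≤ R := by exact_mod_cast hZ
      gcongr
    · rw [nsmul_eq_mul]; gcongr
  have h11 := card_nsmul_le_sum W _ _ h1
  rw [hWc, nsmul_eq_mul] at h11
  nlinarith

theorem round_step (M R K : ℕ) (hM : 1 ≤ M) (η' : ℝ) (hη' : 0 < η') :
    ∃ η : ℝ, 0 < η ∧ η ≤ η' ∧ ∃ D : ℕ, ∀ k ≤ K, ∀ (E : Type) [NormedAddCommGroup E]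
    [InnerProductSpace ℝ E] [DecidableEq E] (U : Set E) (A : Finset E) (g : E → Finset ℕ → E),
    St M R k η U A g → ∃ A' ⊆ A, ∃ U', U ⊆ U' ∧ ∃ g', St M R (k + 1) η' U' A' g' ∧
      Sparse D R (A \ A') (fun _ => k) g := by
  obtain ⟨θ, hθ0, hθ1, hθ2⟩ : ∃ θ : ℝ, 0 < θ ∧ θ ≤ η' / 20 ∧ θ ≤ 1 / 20 :=
    ⟨min (η' / 20) (1 / 20), by positivity, min_le_left _ _, min_le_right _ _⟩
  obtain ⟨ε, hε0, hε1, hε2, hε3⟩ : ∃ ε : ℝ, 0 < ε ∧ ε ≤ θ ∧ 11 * (R + 1) * ε ≤ θ ^ 2 ∧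
      8 * 2 ^ K * R * (R + 1) * ε < 1 := by
    refine ⟨min θ (min (θ ^ 2 / (11 * (R + 1))) (1 / (8 * 2 ^ K * R * (R + 1) + 1))),
      by positivity, min_le_left _ _, ?_, ?_⟩
    · rw [mul_comm, ← le_div_iff₀ (by positivity)]
      exact (min_le_right _ _).trans (min_le_left _ _)
    · have h1 := (min_le_right θ _).trans (min_le_right (θ ^ 2 / (11 * (R + 1)))
        (1 / (8 * 2 ^ K * R * (R + 1) + 1) : ℝ))
      rw [le_div_iff₀ (by positivity)] at h1
      have : 0 < min θ (min (θ ^ 2 / (11 * (R + 1))) (1 / (8 * 2 ^ K * R * (R + 1) + 1) : ℝ)) := by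
        positivity
      nlinarith
  obtain ⟨N, hN2, hN⟩ : ∃ N : ℕ, 2 ≤ N ∧ 2 * ((R : ℝ) + 1) / N ≤ ε := by
    obtain ⟨N, hN⟩ := exists_nat_ge (2 * ((R : ℝ) + 1) / ε)
    refine ⟨N + 2, by omega, ?_⟩
    rw [div_le_iff₀ hε0] at hN
    rw [div_le_iff₀ (by positivity)]
    push_cast
    nlinarith
  have hN' : (0 : ℝ) < N := by exact_mod_cast (by omega : 0 < N)
  have hN3 : ((R : ℝ) + 1) / N ≤ ε := le_trans (by gcongr; linarith [Nat.cast_nonneg (α := ℝ) R]) hN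
  obtain ⟨D, hD⟩ := leftover R K N
  refine ⟨ε, hε0, by linarith, D, fun k hk E _ _ _ U A g h => ?_⟩
  classical
  let Prog : Finset E → (Finset ℕ → ℤ) → Prop := fun W α => W ⊆ A ∧ W.card = N ∧
    (∀ ω ⊆ range k, ∀ v ∈ W, ∀ w ∈ W, v ≠ w → r (g v ω) (g w ω) = α ω) ∧
    ∀ j < k, ∃ ω ⊆ range k, j ∈ ω ∧ α ω ≠ 0
  set A' := A.filter fun v => ∃ W α, Prog W α ∧ v ∈ W with hA'
  have hex : ∀ v ∈ A', ∃ W α, Prog W α ∧ v ∈ W := fun v hv => (mem_filter.mp hv).2
  choose! W α hP hvW using hex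
  have hA'A : ∀ v ∈ A', v ∈ A := fun v hv => (mem_filter.mp hv).1
  have hWc : ∀ v ∈ A', 0 < (W v).card := fun v hv => by rw [(hP v hv).2.1]; omega
  set a : E → Finset ℕ → E := fun v ω => avg (W v) fun w => g w ω with ha
  have hgn : ∀ v ∈ A', ∀ ω ⊆ range k, ∀ w ∈ W v, ‖g w ω‖ ^ 2 ≤ R + 1 := fun v hv ω hω w hw =>
    h.good.normsq (h.mem w ((hP v hv).1 hw) ω hω)
  have hαa : ∀ v ∈ A', ∀ ω ⊆ range k, |((α v ω : ℤ) : ℝ)| ≤ R + 1 := by
    intro v hv ω hω
    obtain ⟨w, hw, hwv⟩ := exists_mem_ne (by rw [(hP v hv).2.1]; omega : 1 < (W v).card) v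
    have := h.good.abs_r (h.mem w ((hP v hv).1 hw) ω hω) (h.mem v (hA'A v hv) ω hω)
    rw [(hP v hv).2.2.1 ω hω w hw v (hvW v hv) hwv] at this
    exact_mod_cast this
  have hc := fun v (hv : v ∈ A') ω (hω : ω ⊆ range k) =>
    center (hWc v hv) (fun w => g w ω) (P := R + 1) (ε := ε) (k := α v ω) (by positivity)
      (hαa v hv ω hω) (by rw [(hP v hv).2.1]; exact hN) (hgn v hv ω hω)
      (fun x hx y hy hxy => by
        rw [← (hP v hv).2.2.1 ω hω x hx y hy hxy]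
        exact h.good.1 _ (h.mem x ((hP v hv).1 hx) ω hω) _ (h.mem y ((hP v hv).1 hy) ω hω))
  have hra : ∀ v ∈ A', ∀ ω ⊆ range k, r (a v ω) (a v ω) = α v ω := fun v hv ω hω =>
    r_eq ((hc v hv ω hω).2.1.trans_lt (by linarith))
  have hrρ : ∀ v ∈ A', ∀ ω ⊆ range k,
      r (g v ω - a v ω) (g v ω - a v ω) = r (g v ω) (g v ω) - α v ω := by
    intro v hv ω hω
    apply r_eq
    have b1 := abs_le.mp ((hc v hv ω hω).1 v (hvW v hv))
    have b2 := abs_le.mp (hc v hv ω hω).2.1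
    have b3 := abs_le.mp (h.good.1 _ (h.mem v (hA'A v hv) ω hω) _ (h.mem v (hA'A v hv) ω hω))
    rw [inner_sub_left, inner_sub_right, inner_sub_right, real_inner_comm (g v ω) (a v ω), abs_lt]
    push_cast
    constructor <;> linarith [b1.1, b1.2, b2.1, b2.2, b3.1, b3.2]
  have hgR : ∀ v ∈ A', ∀ ω ⊆ range k, r (g v ω) (g v ω) ≤ R := fun v hv ω hω =>
    h.good.2 _ (h.mem v (hA'A v hv) ω hω)
  set S1 : Set E := {s | ∃ v ∈ A', ∃ ω ⊆ range k, s = a v ω} with hS1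
  set S2 : Set E := {s | ∃ v ∈ A', ∃ ω ⊆ range k, s = g v ω - a v ω} with hS2
  have G1 : Good (ε + θ + θ) R (U ∪ S1) := by
    refine good_ext (fun δ => δ + θ) h.good ?_ (by linarith) (by linarith)
    rintro s ⟨v, hv, ω, hω, rfl⟩
    refine ⟨?_, fun u hu δ hδ => ?_⟩
    · have := r_self_nonneg (g v ω - a v ω)
      have := hgR v hv ω hω
      rw [hrρ v hv ω hω] at *
      rw [hra v hv ω hω]; omega
    · obtain ⟨w, hw, hw2⟩ := (hc v hv ω hω).2.2 u hu
      have b1 := abs_le.mp (abs_le_of_sq_le_sq (hw2.trans hε2) hθ0.le)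
      have b2 := abs_le.mp (hδ _ (h.mem w ((hP v hv).1 hw) ω hω))
      apply near_r (k := r u (g w ω))
      rw [abs_le]
      constructor <;> linarith [b1.1, b1.2, b2.1, b2.2]
  have G2 : Good (2 * (2 * (ε + θ + θ))) R (U ∪ S1 ∪ S2) := by
    refine good_ext (fun δ => 2 * δ) G1 ?_ (by linarith) (by linarith)
    rintro s ⟨v, hv, ω, hω, rfl⟩
    refine ⟨?_, fun u hu δ hδ => ?_⟩
    · have := r_self_nonneg (a v ω)
      have := hgR v hv ω hω
      rw [hra v hv ω hω] at *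
      rw [hrρ v hv ω hω]; omega
    · have b1 := abs_le.mp (hδ _ (Or.inl (h.mem v (hA'A v hv) ω hω)))
      have b2 := abs_le.mp (hδ (a v ω) (Or.inr ⟨v, hv, ω, hω, rfl⟩))
      apply near_r (k := r u (g v ω) - r u (a v ω))
      rw [inner_sub_right, abs_le]
      push_cast
      constructor <;> linarith [b1.1, b1.2, b2.1, b2.2]
  set g' : E → Finset ℕ → E := fun v ω =>
    if k ∈ ω then g v (ω.erase k) - a v (ω.erase k) else a v ω with hg'
  have e1 : ∀ v, ∀ ω ⊆ range k, g' v ω = a v ω := fun v ω hω => by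
    have : k ∉ ω := fun h => by simpa using hω h
    simp [hg', this]
  have e2 : ∀ v, ∀ ω ⊆ range k, g' v (insert k ω) = g v ω - a v ω := fun v ω hω => by
    have : k ∉ ω := fun h => by simpa using hω h
    simp [hg', erase_insert this]
  have e3 : ∀ v, ∀ S ⊆ range k, ∑ ω ∈ (insert k S).powerset, g' v ω = ∑ ω ∈ S.powerset, g v ω := by
    intro v S hS
    rw [sum_powerset_insert (fun h => by simpa using hS h), ← sum_add_distrib]
    refine sum_congr rfl fun ω hω => ?_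
    have := (mem_powerset.mp hω).trans hS
    rw [e1 v ω this, e2 v ω this]; abel
  have hsub : ∀ ω ⊆ range (k + 1), ω.erase k ⊆ range k := fun ω hω x hx => by
    have h1 := mem_range.mp (hω (mem_of_mem_erase hx))
    have h2 := ne_of_mem_erase hx
    rw [mem_range]; omega
  have hM' : (1 : ℝ) ≤ M := by exact_mod_cast hM
  refine ⟨A', filter_subset _ _, U ∪ S1 ∪ S2, fun x hx => Or.inl (Or.inl hx), g',
    ⟨G2.mono (by linarith), ?_, ?_, ?_, ?_, ?_, fun v hv => h.top v (hA'A v hv),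
      fun v hv w hw hvw => (h.far v (hA'A v hv) w (hA'A w hw) hvw).trans (by linarith)⟩, ?_⟩
  · intro v hv ω hω
    by_cases hk : k ∈ ω
    · rw [← insert_erase hk, e2 v _ (hsub ω hω)]
      exact Or.inr ⟨v, hv, _, hsub ω hω, rfl⟩
    · have := hsub ω hω
      rw [erase_eq_of_notMem hk] at this
      rw [e1 v ω this]
      exact Or.inl (Or.inr ⟨v, hv, ω, this, rfl⟩)
  · intro v hv
    rw [range_add_one, e3 v _ Subset.rfl, h.sum v (hA'A v hv)]
  · intro v hv S hS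
    have h1 := hsub S hS.1
    by_cases hk : k ∈ S
    · rw [← insert_erase hk, e3 v _ h1]
      refine (h.low v (hA'A v hv) _ ⟨h1, fun h2 => hS.2 ?_⟩).trans (by linarith)
      rw [range_add_one]
      exact insert_subset hk (h2.trans (erase_subset _ _))
    · rw [erase_eq_of_notMem hk] at h1
      have e4 : ∑ ω ∈ S.powerset, g' v ω = avg (W v) fun w => ∑ ω ∈ S.powerset, g w ω := by
        rw [sum_congr rfl fun ω hω => e1 v ω ((mem_powerset.mp hω).trans h1)]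
        simp only [ha, avg]
        rw [← smul_sum, sum_comm]
      rw [e4]
      by_cases hS2 : range k ⊆ S
      · obtain rfl : S = range k := Subset.antisymm h1 hS2
        refine normsq_avg (hWc v hv) _ fun x hx => ?_
        have hxA := (hP v hv).1 hx
        rw [inner_avg, sum_congr rfl fun w hw => by
          rw [h.sum x hxA, h.sum w ((hP v hv).1 hw)]]
        refine (mean_le (hWc v hv) (fun w => ⟪x, w⟫) x (Q := M - 1 + ε) (B := R + 1)
          (by positivity) (fun w hw hwx => h.far x hxA w ((hP v hv).1 hw) hwx.symm) ?_).trans ?_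
        · rw [real_inner_self_eq_norm_sq]
          linarith [h.top x hxA]
        · rw [(hP v hv).2.1]; linarith
      · exact (normsq_avg_le (hWc v hv) _ fun w hw =>
          h.low w ((hP v hv).1 hw) S ⟨h1, hS2⟩).trans (by linarith)
  · intro v hv
    rw [range_add_one, sum_powerset_insert notMem_range_self, ← sum_add_distrib]
    refine le_trans (le_of_eq (sum_congr rfl fun ω hω => ?_)) (h.pot v (hA'A v hv))
    have := mem_powerset.mp hω
    rw [e1 v ω this, e2 v ω this, hra v hv ω this, hrρ v hv ω this]; ring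
  · intro v hv j' hj' j hj
    have hsup : ∀ ω ⊆ range k, ω ⊆ range (k + 1) := fun ω hω =>
      hω.trans (range_subset_range.mpr (by omega))
    rcases Nat.lt_succ_iff_lt_or_eq.mp hj' with hj2 | rfl
    · obtain ⟨ω, h1, h2, h3, h4⟩ := h.sep v (hA'A v hv) j' hj2 j hj
      by_cases h5 : α v ω = 0
      · refine ⟨insert k ω, ?_, mem_insert_of_mem h2, ?_, ?_⟩
        · rw [range_add_one]; exact insert_subset_insert _ h1
        · rw [mem_insert]; push Not; exact ⟨hj2.ne, h3⟩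
        · rw [e2 v ω h1, hrρ v hv ω h1, h5]; simpa using h4
      · exact ⟨ω, hsup ω h1, h2, h3, by rw [e1 v ω h1, hra v hv ω h1]; exact h5⟩
    · obtain ⟨ω, h1, h2, h3⟩ := (hP v hv).2.2.2 j hj
      exact ⟨ω, hsup ω h1, h2, fun h => by simpa using h1 h,
        by rw [e1 v ω h1, hra v hv ω h1]; exact h3⟩
  · refine hD ε (by omega) hN3 hε3 k hk E U _ g h.good
      (fun v hv => h.mem v (mem_sdiff.mp hv).1) fun W0 hW0 hW0c α0 hα0 => ?_
    by_contra hcon
    push Not at hcon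
    obtain ⟨v, hv⟩ : W0.Nonempty := card_pos.mp (by omega)
    exact (mem_sdiff.mp (hW0 hv)).2 (mem_filter.mpr ⟨(mem_sdiff.mp (hW0 hv)).1, W0, α0,
      ⟨hW0.trans sdiff_subset, hW0c, hα0, hcon⟩, hv⟩)

end Pool.Agent.MP_6cd9e0_an.H46
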