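import Mathlib
import Pool.Agent.MP_6cd9e0_an.H46.Round

/-! The structure theorem: vectors of top norm split into boundedly many pieces. -/

namespace Pool.Agent.MP_6cd9e0_an.H46

open Finset
open scoped RealInnerProductSpace

theorem iterate (M R : ℕ) (hM : 1 ≤ M) (n : ℕ) : ∀ η' : ℝ, 0 < η' →
    ∃ η : ℝ, 0 < η ∧ η ≤ η' ∧ ∃ D : ℕ, ∀ k, k + n = 2 ^ M + 1 → ∀ (E : Type)
    [NormedAddCommGroup E] [InnerProductSpace ℝ E] (U : Set E) (A : Finset E)
    (g : E → Finset ℕ → E), St M R k η U A g → ∃ U', U ⊆ U' ∧ Good η' R U' ∧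
      ∃ (kk : E → ℕ) (g' : E → Finset ℕ → E), Sparse D R A kk g' ∧ ∀ v ∈ A,
        kk v ≤ 2 ^ M + 1 ∧ (∀ ω ⊆ range (kk v), g' v ω ∈ U') ∧
        ∑ ω ∈ (range (kk v)).powerset, g' v ω = v ∧
        ∀ S ⊂ range (kk v), ‖∑ ω ∈ S.powerset, g' v ω‖ ^ 2 ≤ M - 1 + η' := by
  induction n with
  | zero =>
    intro η' hη'
    refine ⟨η', hη', le_rfl, 0, fun k hk E _ _ U A g h => ?_⟩
    obtain rfl := h.stop (by omega)
    exact ⟨U, le_rfl, h.good, fun _ => 0, g, fun Z _ _ => by simp, by simp⟩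
  | succ n ih =>
    intro η' hη'
    obtain ⟨η1, h1, h1', D1, H1⟩ := ih η' hη'
    obtain ⟨η, h0, h0', D0, H0⟩ := round_step M R (2 ^ M + 1) hM η1 h1
    refine ⟨η, h0, h0'.trans h1', D1 + D0, fun k hk E _ _ U A g h => ?_⟩
    classical
    obtain ⟨A', hA', U1, hU1, g1, hst, hsp⟩ := H0 k (by omega) E U A g h
    obtain ⟨U2, hU2, hG, kk, g2, hsp2, hfin⟩ := H1 (k + 1) (by omega) E U1 A' g1 hst
    refine ⟨U2, hU1.trans hU2, hG, fun v => if v ∈ A' then kk v else k,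
      fun v => if v ∈ A' then g2 v else g v, fun Z hZ hZ2 => ?_, fun v hv => ?_⟩
    · refine le_trans ?_ (add_le_add (hsp2 Z hZ hZ2) (hsp Z hZ hZ2))
      refine le_trans (card_le_card fun v hv => ?_) (card_union_le _ _)
      rw [mem_filter] at hv
      by_cases hv' : v ∈ A'
      · simp only [hv', if_true] at hv
        exact mem_union_left _ (mem_filter.mpr ⟨hv', hv.2⟩)
      · simp only [hv', if_false] at hv
        exact mem_union_right _ (mem_filter.mpr ⟨mem_sdiff.mpr ⟨hv.1, hv'⟩, hv.2⟩)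
    · by_cases hv' : v ∈ A'
      · simp only [hv', if_true]
        exact hfin v hv'
      · simp only [hv', if_false]
        exact ⟨by omega, fun ω hω => hU2 (hU1 (h.mem v hv ω hω)), h.sum v hv,
          fun S hS => (h.low v hv S hS).trans (by linarith)⟩

variable {E : Type} [NormedAddCommGroup E] [InnerProductSpace ℝ E]

/-- Sum of the pieces whose marks lie in `S`. -/
noncomputable def cs (G : Finset ℕ → E) (S : Finset ℕ) : E := ∑ ω ∈ S.powerset, G ω

/-- The final data attached to one vector of top norm. -/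
structure Done (M : ℕ) (U : Set E) (v : E) (k : ℕ) (G : Finset ℕ → E) : Prop where
  le : k ≤ 2 ^ M + 1
  mem : ∀ ω ⊆ range k, G ω ∈ U
  sum : cs G (range k) = v
  memc : ∀ S ⊆ range k, cs G S ∈ U
  low : ∀ S ⊂ range k, r (cs G S) (cs G S) ≤ M - 1
  add : ∀ z ∈ U, ∀ S ⊆ range k, r z (cs G S) = ∑ ω ∈ S.powerset, r z (G ω)

theorem split (M R : ℕ) (hM : 1 ≤ M) (hR : M ≤ R) (η' : ℝ) (hη' : 0 < η') :
    ∃ η : ℝ, 0 < η ∧ η ≤ η' ∧ ∃ D : ℕ, ∀ (E : Type)
    [NormedAddCommGroup E] [InnerProductSpace ℝ E] (U : Set E) (T : Finset E), Good η R U →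
    (∀ v ∈ T, v ∈ U ∧ r v v ≤ M) → (∀ v ∈ T, ∀ w ∈ T, v ≠ w → r v w ≤ M - 1) →
    ∃ U', U ⊆ U' ∧ Good η' R U' ∧ ∃ (kk : E → ℕ) (g : E → Finset ℕ → E),
      Sparse D R T kk g ∧ ∀ v ∈ T, Done M U' v (kk v) (g v) := by
  obtain ⟨m, hm⟩ : ∃ m : ℝ, m = 2 ^ (2 ^ M + 1) := ⟨_, rfl⟩
  have hm1 : 1 ≤ m := by rw [hm]; exact one_le_pow₀ (by norm_num)
  obtain ⟨δ, hδ0, hδ1, hδ2⟩ : ∃ δ : ℝ, 0 < δ ∧ m * (m * δ) ≤ η' ∧ m * (m * (m * δ)) ≤ 1 / 4 := by
    refine ⟨min (η' / (m * m)) (1 / (4 * (m * m * m))), by positivity, ?_, ?_⟩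
    · rw [← mul_assoc, mul_comm, ← le_div_iff₀ (by positivity)]; exact min_le_left _ _
    · have := min_le_right (η' / (m * m)) (1 / (4 * (m * m * m)))
      rw [le_div_iff₀ (by positivity)] at this
      linarith
  have hδ3 : δ ≤ m * δ := by nlinarith
  have hδ4 : m * δ ≤ m * (m * δ) := by nlinarith
  have hδ5 : m * (m * δ) ≤ m * (m * (m * δ)) := by nlinarith
  obtain ⟨η, h0, h0', D, H⟩ := iterate M R hM (2 ^ M) δ hδ0
  refine ⟨η, h0, by linarith, D, fun E _ _ U T hU hT hT2 => ?_⟩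
  classical
  have hM' : (1 : ℝ) ≤ M := by exact_mod_cast hM
  have hst : St M R 1 η (insert 0 U) T fun v ω => if 0 ∈ ω then v else 0 := by
    refine ⟨⟨?_, ?_⟩, ?_, ?_, ?_, ?_, ?_, fun v hv => hU.normsq (hT v hv).1, ?_⟩
    · rintro u (rfl | hu) w (rfl | hw)
      · simpa using h0.le
      · simpa using h0.le
      · simpa using h0.le
      · exact hU.1 u hu w hw
    · rintro u (rfl | hu)
      · simp
      · exact hU.2 u hu
    · intro v hv ω _
      split_ifs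
      · exact Or.inr (hT v hv).1
      · exact Or.inl rfl
    · intro v hv
      rw [range_add_one, sum_powerset_insert notMem_range_self]; simp
    · intro v hv S hS
      obtain rfl : S = ∅ := by simpa using hS
      simp; linarith
    · intro v hv
      rw [range_add_one, sum_powerset_insert notMem_range_self]
      simpa using (hT v hv).2
    · intro v hv j' hj' j hj; omega
    · intro v hv w hw hvw
      have h1 := abs_le.mp (hU.1 v (hT v hv).1 w (hT w hw).1)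
      have h2 : ((r v w : ℤ) : ℝ) ≤ M - 1 := by exact_mod_cast hT2 v hv w hw hvw
      linarith [h1.2]
  obtain ⟨U1, hU1, hG, kk, g, hsp, hfin⟩ := H 1 (by omega) E _ T _ hst
  have hcard : ∀ v ∈ T, ∀ S ⊆ range (kk v), (S.powerset.card : ℝ) ≤ m := by
    intro v hv S hS
    have h1 := card_le_card hS
    rw [card_range] at h1
    rw [card_powerset, hm]
    exact_mod_cast Nat.pow_le_pow_right (by norm_num) (h1.trans (hfin v hv).1)
  have hnear : ∀ v ∈ T, ∀ S ⊆ range (kk v), ∀ (u : E) (θ : ℝ), 0 ≤ θ →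
      (∀ w ∈ U1, |⟪u, w⟫ - r u w| ≤ θ) →
      |⟪u, cs (g v) S⟫ - ((∑ ω ∈ S.powerset, r u (g v ω) : ℤ) : ℝ)| ≤ m * θ := by
    intro v hv S hS u θ hθ hu
    refine (near_sum _ u _ fun ω hω =>
      hu _ ((hfin v hv).2.1 ω ((mem_powerset.mp hω).trans hS))).trans ?_
    gcongr
    exact hcard v hv S hS
  have hlow : ∀ v ∈ T, ∀ S ⊂ range (kk v), r (cs (g v) S) (cs (g v) S) ≤ M - 1 := by
    intro v hv S hS
    apply r_le
    rw [real_inner_self_eq_norm_sq]
    have := (hfin v hv).2.2.2 S hS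
    push_cast
    unfold cs
    linarith
  set S1 : Set E := {s | ∃ v ∈ T, ∃ S ⊆ range (kk v), s = cs (g v) S} with hS1
  have G2 : Good (m * (m * δ)) R (U1 ∪ S1) := by
    have := good_ext (S := S1) (fun θ => m * |θ|) hG ?_ (by rwa [abs_of_pos hδ0])
      (by rw [abs_of_pos hδ0, abs_of_pos (by positivity)]; exact hδ4)
    · rwa [abs_of_pos hδ0, abs_of_pos (by positivity)] at this
    rintro s ⟨v, hv, S, hS, rfl⟩
    refine ⟨?_, fun u _ θ hθ =>
      near_r (hnear v hv S hS u _ (abs_nonneg θ) fun w hw => (hθ w hw).trans (le_abs_self θ))⟩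
    rcases hS.eq_or_ssubset with rfl | h
    · rw [cs, (hfin v hv).2.2.1]
      have := (hT v hv).2; omega
    · have := hlow v hv S h; omega
  refine ⟨U1 ∪ S1, fun x hx => Or.inl (hU1 (Or.inr hx)), G2.mono hδ1, kk, g, hsp, fun v hv =>
    ⟨(hfin v hv).1, fun ω hω => Or.inl ((hfin v hv).2.1 ω hω), (hfin v hv).2.2.1,
      fun S hS => Or.inr ⟨v, hv, S, hS, rfl⟩, hlow v hv, fun z hz S hS => ?_⟩⟩
  exact r_eq ((hnear v hv S hS z _ (by positivity) fun w hw =>
    G2.1 z hz w (Or.inl hw)).trans_lt (by linarith))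

end Pool.Agent.MP_6cd9e0_an.H46
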