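import Mathlib
import Pool.Agent.MP_6cd9e0_an.H46.Split

/-! Quadratic forms on weighted configurations, particles, and the decomposition lemma. -/

namespace Pool.Agent.MP_6cd9e0_an.H46

open Finset
open scoped RealInnerProductSpace

variable {E : Type} [NormedAddCommGroup E] [InnerProductSpace ℝ E]

/-- Integration of a function against a finitely supported weight. -/
noncomputable def ev (φ : E → ℝ) : (E →₀ ℝ) →ₗ[ℝ] ℝ := Finsupp.linearCombination ℝ φ

omit [NormedAddCommGroup E] [InnerProductSpace ℝ E] in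
theorem ev_apply (φ : E → ℝ) (x : E →₀ ℝ) : ev φ x = ∑ u ∈ x.support, x u * φ u := rfl

omit [NormedAddCommGroup E] [InnerProductSpace ℝ E] in
@[simp] theorem ev_single (φ : E → ℝ) (u : E) (a : ℝ) : ev φ (Finsupp.single u a) = a * φ u := by
  simp [ev]

omit [NormedAddCommGroup E] [InnerProductSpace ℝ E] in
theorem ev_congr {φ ψ : E → ℝ} {x : E →₀ ℝ} (h : ∀ u ∈ x.support, φ u = ψ u) :
    ev φ x = ev ψ x := by
  rw [ev_apply, ev_apply]; exact sum_congr rfl fun u hu => by rw [h u hu]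

/-- The bilinear form of `f`. -/
noncomputable def Q (f : ℤ → ℝ) (x y : E →₀ ℝ) : ℝ := ev (fun u => ev (fun w => f (r u w)) y) x

theorem Q_comm (f : ℤ → ℝ) (x y : E →₀ ℝ) : Q f x y = Q f y x := by
  simp only [Q, ev_apply, mul_sum]
  rw [sum_comm]
  exact sum_congr rfl fun u _ => sum_congr rfl fun w _ => by rw [r_comm]; ring

theorem Q_add (f : ℤ → ℝ) (x y : E →₀ ℝ) :
    Q f (x + y) (x + y) = Q f x x + 2 * Q f y x + Q f y y := by
  have h : ∀ a b c : E →₀ ℝ, Q f (a + b) c = Q f a c + Q f b c := fun a b c => map_add _ _ _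
  rw [h, Q_comm f x, Q_comm f y, h, h, Q_comm f x y]; ring

theorem Q_sum {α : Type} (f : ℤ → ℝ) (T : Finset α) (c : α → ℝ) (p : α → E →₀ ℝ) (y : E →₀ ℝ) :
    Q f (∑ v ∈ T, c v • p v) y = ∑ v ∈ T, c v * Q f (p v) y := by
  simp [Q, map_sum]

/-- An odd function of the rounded inner products with the vectors of `Z`. -/
def IsTest (Z : Set E) (φ : E → ℝ) : Prop :=
  ∀ (u u' : E) (s : ℤ), (s = 1 ∨ s = -1) → (∀ z ∈ Z, r z u = s * r z u') → φ u = s * φ u'

theorem IsTest.mono {Z Z' : Set E} {φ : E → ℝ} (h : IsTest Z φ) (hZ : Z ⊆ Z') : IsTest Z' φ :=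
  fun u u' s hs hz => h u u' s hs fun z hz' => hz z (hZ hz')

theorem odd_mul {f : ℤ → ℝ} (hf : ∀ m, f (-m) = -f m) {s : ℤ} (hs : s = 1 ∨ s = -1) (m : ℤ) :
    f (s * m) = s * f m := by
  rcases hs with rfl | rfl <;> simp [hf]

theorem isTest_Q {f : ℤ → ℝ} (hf : ∀ m, f (-m) = -f m) {Z : Set E} {y : E →₀ ℝ}
    (hy : ∀ w ∈ y.support, w ∈ Z) : IsTest Z fun u => ev (fun w => f (r u w)) y := by
  intro u u' s hs hz
  simp only [ev_apply, mul_sum]
  refine sum_congr rfl fun w hw => ?_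
  rw [r_comm u, r_comm u', hz w (hy w hw), odd_mul hf hs]; ring

/-- Weights supported on vectors of `U` of rounded norm at most `M`. -/
def Lev (M : ℤ) (U : Set E) : Submodule ℝ (E →₀ ℝ) :=
  Finsupp.supported ℝ ℝ {u | u ∈ U ∧ r u u ≤ M}

theorem mem_Lev {M : ℤ} {U : Set E} {x : E →₀ ℝ} :
    x ∈ Lev M U ↔ ∀ u ∈ x.support, u ∈ U ∧ r u u ≤ M := Iff.rfl

/-- No two distinct vectors of the support are parallel of top norm. -/
def Red (M : ℤ) (x : E →₀ ℝ) : Prop := ∀ u ∈ x.support, ∀ w ∈ x.support, u ≠ w → |r u w| < M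

theorem Good.dup {η : ℝ} {R : ℕ} {U : Set E} (h : Good η R U) (hη : 100 * (R + 1) * η ≤ 1)
    {M : ℤ} {u w : E} (hu : u ∈ U) (hw : w ∈ U) (h1 : r u u ≤ M) (h2 : r w w ≤ M)
    (h3 : M ≤ |r u w|) : ∃ s : ℤ, (s = 1 ∨ s = -1) ∧ ∀ z ∈ U, r z u = s * r z w := by
  have hη0 : 0 ≤ η := (abs_nonneg _).trans (h.1 u hu u hu)
  have hη1 : η ≤ 1 / 100 := by nlinarith [Nat.cast_nonneg (α := ℝ) R]
  obtain ⟨s, hs, hs2⟩ : ∃ s : ℤ, (s = 1 ∨ s = -1) ∧ M ≤ s * r u w := by
    rcases le_abs.mp h3 with h | h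
    · exact ⟨1, Or.inl rfl, by omega⟩
    · exact ⟨-1, Or.inr rfl, by omega⟩
  refine ⟨s, hs, fun z hz => ?_⟩
  have a1 := abs_le.mp (h.1 u hu u hu)
  have a2 := abs_le.mp (h.1 w hw w hw)
  have a3 := abs_le.mp (h.1 u hu w hw)
  have a5 := abs_le.mp (h.1 z hz w hw)
  have b1 : ((r u u : ℤ) : ℝ) ≤ M := by exact_mod_cast h1
  have b2 : ((r w w : ℤ) : ℝ) ≤ M := by exact_mod_cast h2
  have b3 : (M : ℝ) ≤ s * r u w := by exact_mod_cast hs2
  have c1 : ‖u - (s : ℝ) • w‖ ^ 2 ≤ 4 * η := by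
    rw [← real_inner_self_eq_norm_sq, inner_sub_left, inner_sub_right, inner_sub_right,
      inner_smul_left, inner_smul_left, inner_smul_right, inner_smul_right, real_inner_comm u w]
    rcases hs with rfl | rfl <;> simp only [conj_trivial] <;> push_cast at b3 ⊢ <;>
      linarith [a1.2, a2.2, a3.1, a3.2]
  have c2 : |⟪z, u - (s : ℝ) • w⟫| ≤ 1 / 4 := by
    refine (abs_real_inner_le_norm _ _).trans ?_
    apply abs_le_of_sq_le_sq' _ (by norm_num) |>.2
    rw [mul_pow]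
    calc _ ≤ (R + 1) * (4 * η) := by gcongr; exact h.normsq hz
      _ ≤ _ := by linarith
  rw [inner_sub_right, inner_smul_right] at c2
  have c3 := abs_le.mp c2
  apply r_eq
  rw [abs_lt]
  rcases hs with rfl | rfl <;> push_cast at c3 ⊢ <;> constructor <;>
    linarith [c3.1, c3.2, a5.1, a5.2]

theorem Good.abs_r_lt {η : ℝ} {R : ℕ} {U : Set E} (h : Good η R U) (hη : 100 * (R + 1) * η ≤ 1)
    {M : ℤ} {u w : E} (hu : u ∈ U) (hw : w ∈ U) (h1 : r u u ≤ M - 1) (h2 : r w w ≤ M) :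
    |r u w| < M := by
  by_contra hc
  obtain ⟨s, hs, hs2⟩ := h.dup hη hu hw (by omega) h2 (not_lt.mp hc)
  have h3 := hs2 u hu
  have h4 := r_self_nonneg u
  rcases hs with rfl | rfl <;> rw [abs_lt] at hc <;> omega

theorem Good.reduce {η : ℝ} {R : ℕ} {U : Set E} (h : Good η R U) (hη : 100 * (R + 1) * η ≤ 1)
    (M : ℤ) (x : E →₀ ℝ) (hx : x ∈ Lev M U) :
    ∃ x' ∈ Lev M U, Red M x' ∧ ∀ φ, IsTest U φ → ev φ x = ev φ x' := by
  classical
  induction hn : x.support.card using Nat.strong_induction_on generalizing x with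
  | _ n ih =>
    by_cases hr : Red M x
    · exact ⟨x, hx, hr, fun _ _ => rfl⟩
    unfold Red at hr
    push Not at hr
    obtain ⟨u, hu, w, hw, huw, h3⟩ := hr
    obtain ⟨s, hs, hs2⟩ := h.dup hη (hx hu).1 (hx hw).1 (hx hu).2 (hx hw).2 h3
    set x1 := x - Finsupp.single u (x u) + Finsupp.single w (s * x u) with hx1
    have hsub : x1.support ⊆ x.support.erase u := by
      intro a ha
      rw [Finsupp.mem_support_iff] at ha
      rw [mem_erase, Finsupp.mem_support_iff]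
      by_cases h1 : a = u
      · subst h1; simp [hx1, huw] at ha
      · refine ⟨h1, ?_⟩
        by_cases h2 : a = w
        · subst h2; exact Finsupp.mem_support_iff.mp hw
        · simpa [hx1, h1, h2] using ha
    obtain ⟨x', h1, h2, h4⟩ := ih _ ((card_le_card hsub).trans_lt (hn ▸ card_erase_lt_of_mem hu))
      x1 (fun a ha => hx (mem_of_mem_erase (hsub ha))) rfl
    refine ⟨x', h1, h2, fun φ hφ => ?_⟩
    rw [← h4 φ hφ, hx1, map_add, map_sub, ev_single, ev_single, hφ u w s hs hs2]; ring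

theorem Q_eq_of_ev {f : ℤ → ℝ} (hf : ∀ m, f (-m) = -f m) {U : Set E} {x x' : E →₀ ℝ}
    (hx : ∀ u ∈ x.support, u ∈ U) (hx' : ∀ u ∈ x'.support, u ∈ U)
    (h : ∀ φ, IsTest U φ → ev φ x = ev φ x') : Q f x x = Q f x' x' := by
  have h1 : Q f x x = Q f x' x := h _ (isTest_Q hf hx)
  have h2 : Q f x x' = Q f x' x' := h _ (isTest_Q hf hx')
  rw [h1, Q_comm, h2]

/-- The alternating combination of partial sums attached to a split vector. -/
noncomputable def P (k : ℕ) (G : Finset ℕ → E) : E →₀ ℝ :=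
  ∑ S ∈ (range k).powerset, Finsupp.single (cs G S) ((-1) ^ (k + S.card))

omit [InnerProductSpace ℝ E] in
theorem ev_P (φ : E → ℝ) (k : ℕ) (G : Finset ℕ → E) :
    ev φ (P k G) = ∑ S ∈ (range k).powerset, (-1) ^ (k + S.card) * φ (cs G S) := by
  simp [P, map_sum]

theorem alt_zero {k j : ℕ} (hj : j < k) (ψ : Finset ℕ → ℝ)
    (h : ∀ S ⊆ range k, j ∉ S → ψ (insert j S) = ψ S) :
    ∑ S ∈ (range k).powerset, (-1) ^ (k + S.card) * ψ S = 0 := by
  rw [← insert_erase (mem_range.mpr hj), sum_powerset_insert (notMem_erase _ _), ← sum_add_distrib]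
  refine sum_eq_zero fun S hS => ?_
  have h1 := mem_powerset.mp hS
  have h2 : j ∉ S := fun h => notMem_erase _ _ (h1 h)
  rw [h S (h1.trans (erase_subset _ _)) h2, card_insert_of_notMem h2, ← add_assoc, pow_succ]
  ring

theorem sum_insert_blind {k j : ℕ} (hj : j < k) (a : Finset ℕ → ℤ)
    (h : ∀ ω ⊆ range k, j ∈ ω → a ω = 0) {S : Finset ℕ} (hS : S ⊆ range k) (hjS : j ∉ S) :
    ∑ ω ∈ (insert j S).powerset, a ω = ∑ ω ∈ S.powerset, a ω := by
  rw [sum_powerset_insert hjS, add_eq_left]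
  exact sum_eq_zero fun ω hω => h _
    (insert_subset (mem_range.mpr hj) ((mem_powerset.mp hω).trans hS)) (mem_insert_self _ _)

theorem Done.blind {M k : ℕ} {U : Set E} {v : E} {G : Finset ℕ → E} (h : Done M U v k G)
    {Z : Finset E} (hZ : ↑Z ⊆ U) (hb : Blind k G Z) {φ : E → ℝ} (hφ : IsTest Z φ) :
    ev φ (P k G) = 0 := by
  obtain ⟨j, hj, hb⟩ := hb
  rw [ev_P]
  refine alt_zero hj (fun S => φ (cs G S)) fun S hS hjS => ?_
  have := hφ (cs G (insert j S)) (cs G S) 1 (Or.inl rfl) fun z hz => by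
    rw [one_mul, h.add z (hZ hz) S hS, h.add z (hZ hz) _ (insert_subset (mem_range.mpr hj) hS)]
    exact sum_insert_blind hj _ (fun ω h1 h2 => hb ω h1 h2 z hz) hS hjS
  simpa using this

omit [InnerProductSpace ℝ E] in
theorem abs_ev_P {φ : E → ℝ} {k K : ℕ} {G : Finset ℕ → E} {B : ℝ} (hk : k ≤ K) (hB : 0 ≤ B)
    (h : ∀ S ⊆ range k, |φ (cs G S)| ≤ B) : |ev φ (P k G)| ≤ 2 ^ K * B := by
  rw [ev_P]
  refine (abs_sum_le_sum_abs _ _).trans ((sum_le_card_nsmul _ _ B fun S hS => ?_).trans ?_)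
  · rw [abs_mul, abs_neg_one_pow, one_mul]; exact h S (mem_powerset.mp hS)
  · rw [card_powerset, card_range, nsmul_eq_mul]
    push_cast
    gcongr
    norm_num

theorem Done.sub_mem {M k : ℕ} {U : Set E} {v : E} {G : Finset ℕ → E} (h : Done M U v k G) :
    P k G - Finsupp.single v 1 ∈ Lev (M - 1) U := by
  rw [P, ← add_sum_erase _ _ (mem_powerset_self (range k)), h.sum, card_range, ← two_mul,
    pow_mul, neg_one_sq, one_pow, add_sub_cancel_left]
  refine Submodule.sum_mem _ fun S hS => Finsupp.single_mem_supported _ _ ?_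
  have h1 := mem_erase.mp hS
  have h2 := mem_powerset.mp h1.2
  exact ⟨h.memc S h2, h.low S (ssubset_of_subset_of_ne h2 h1.1)⟩

open Classical in
/-- The top vectors of a weight. -/
noncomputable def top (M : ℤ) (x : E →₀ ℝ) : Finset E := x.support.filter fun v => r v v = M

theorem low_mem {M : ℕ} {U U' : Set E} (hU : U ⊆ U') {x : E →₀ ℝ} (hx : x ∈ Lev M U)
    {kk : E → ℕ} {g : E → Finset ℕ → E} (h : ∀ v ∈ top M x, Done M U' v (kk v) (g v)) :
    x - ∑ v ∈ top M x, x v • P (kk v) (g v) ∈ Lev (M - 1) U' := by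
  classical
  have e : x - ∑ v ∈ top M x, x v • P (kk v) (g v)
      = (x - ∑ v ∈ top M x, Finsupp.single v (x v))
        - ∑ v ∈ top M x, x v • (P (kk v) (g v) - Finsupp.single v 1) := by
    simp only [smul_sub, sum_sub_distrib, Finsupp.smul_single, smul_eq_mul, mul_one]
    abel
  rw [e]
  refine Submodule.sub_mem _ ?_
    (Submodule.sum_mem _ fun v hv => Submodule.smul_mem _ _ (h v hv).sub_mem)
  intro u hu
  rw [mem_coe, Finsupp.mem_support_iff, Finsupp.sub_apply, Finsupp.finsetSum_apply] at hu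
  simp only [Finsupp.single_apply, sum_ite_eq'] at hu
  by_cases h1 : u ∈ top M x
  · simp [h1] at hu
  · simp only [h1, if_false, sub_zero] at hu
    have h2 := Finsupp.mem_support_iff.mpr hu
    have h3 := hx h2
    refine ⟨hU h3.1, ?_⟩
    have h4 : r u u ≠ M := fun h => h1 (mem_filter.mpr ⟨h2, h⟩)
    have := h3.2
    omega

end Pool.Agent.MP_6cd9e0_an.H46
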