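import Mathlib
import Pool.Agent.MP_6cd9e0_an.H46.Forms

/-! The inductive step on the norm bound. -/

namespace Pool.Agent.MP_6cd9e0_an.H46

open Finset
open scoped RealInnerProductSpace

variable {E : Type} [NormedAddCommGroup E] [InnerProductSpace ℝ E]

/-- Truncation of `f` below level `M`. -/
noncomputable def tr (M : ℤ) (f : ℤ → ℝ) (m : ℤ) : ℝ := if |m| < M then f m else 0

theorem tr_odd {f : ℤ → ℝ} (hf : ∀ m, f (-m) = -f m) (M m : ℤ) : tr M f (-m) = -tr M f m := by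
  unfold tr; rw [abs_neg, hf]; split_ifs <;> simp

theorem tr_bdd (M : ℤ) (f : ℤ → ℝ) : ∃ B : ℕ, ∀ m, |tr M f m| ≤ B := by
  obtain ⟨B, hB⟩ := exists_nat_ge (∑ m ∈ Icc (-M) M, |f m|)
  refine ⟨B, fun m => ?_⟩
  unfold tr
  split_ifs with h
  · refine le_trans ?_ hB
    exact single_le_sum (f := fun m => |f m|) (fun _ _ => abs_nonneg _)
      (mem_Icc.mpr (abs_le.mp h.le))
  · simp

theorem Done.lev {M k : ℕ} {U : Set E} {v : E} {G : Finset ℕ → E} (h : Done M U v k G)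
    (hv : r v v = M) {S : Finset ℕ} (hS : S ⊆ range k) : r (cs G S) (cs G S) ≤ M := by
  rcases hS.eq_or_ssubset with rfl | h1
  · rw [h.sum, hv]
  · have := h.low S h1; omega

theorem Q_split {η : ℝ} {R M : ℕ} {U : Set E} (hU : Good η R U) (hη : 100 * (R + 1) * η ≤ 1)
    [DecidableEq E] (f : ℤ → ℝ) {v w : E} {k l : ℕ} {G G' : Finset ℕ → E} (h : Done M U v k G)
    (h' : Done M U w l G') (hv : r v v = M) (hw : r w w = M) (hvw : v ≠ w → |r v w| < M) :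
    Q f (P k G) (P l G') = Q (tr M f) (P k G) (P l G') + if v = w then f M else 0 := by
  rw [← sub_eq_iff_eq_add']
  simp only [Q, ev_P, ← sum_sub_distrib, ← mul_sub]
  have z : ∀ a : ℤ, |a| < M → f a - tr M f a = 0 := fun a ha => by simp [tr, ha]
  rw [sum_eq_single_of_mem (range k) (mem_powerset_self _), sum_eq_single_of_mem (range l)
    (mem_powerset_self _), h.sum, h'.sum, card_range, card_range, ← two_mul, ← two_mul, pow_mul,
    pow_mul, neg_one_sq, one_pow, one_pow, one_mul, one_mul]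
  · split_ifs with h1
    · subst h1; simp [hv, tr]
    · exact z _ (hvw h1)
  · intro S hS hS2
    have h1 := mem_powerset.mp hS
    rw [r_comm, z _ (hU.abs_r_lt hη (h'.memc S h1) (h.memc _ Subset.rfl)
      (h'.low S (ssubset_of_subset_of_ne h1 hS2)) (h.lev hv Subset.rfl)), mul_zero]
  · intro S hS hS2
    have h1 := mem_powerset.mp hS
    rw [sum_eq_zero, mul_zero]
    intro S' hS'
    have h2 := mem_powerset.mp hS'
    rw [z _ (hU.abs_r_lt hη (h.memc S h1) (h'.memc _ h2)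
      (h.low S (ssubset_of_subset_of_ne h1 hS2)) (h'.lev hw h2)), mul_zero]

theorem top_bound {η : ℝ} {R M D : ℕ} {U : Set E} (hU : Good η R U) (hη : 100 * (R + 1) * η ≤ 1)
    (hR : 2 ^ (2 ^ M + 1) ≤ R) {f : ℤ → ℝ} (hf : ∀ m, f (-m) = -f m) {B : ℝ}
    (hB : ∀ m, |tr M f m| ≤ B) {x : E →₀ ℝ} (hx : Red M x) {kk : E → ℕ} {g : E → Finset ℕ → E}
    (h : ∀ v ∈ top M x, Done M U v (kk v) (g v)) (hs : Sparse D R (top M x) kk g) :
    (f M - D * (2 ^ (2 ^ M + 1) * (2 ^ (2 ^ M + 1) * B))) * ∑ v ∈ top M x, x v ^ 2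
      ≤ Q f (∑ v ∈ top M x, x v • P (kk v) (g v)) (∑ v ∈ top M x, x v • P (kk v) (g v)) := by
  classical
  set T := top M x with hT
  set b : E → E → ℝ := fun v w => Q (tr M f) (P (kk w) (g w)) (P (kk v) (g v)) with hb
  have hB0 : 0 ≤ B := (abs_nonneg _).trans (hB 0)
  have e : Q f (∑ v ∈ T, x v • P (kk v) (g v)) (∑ v ∈ T, x v • P (kk v) (g v))
      = ∑ v ∈ T, x v * ∑ w ∈ T, x w * b v w + f M * ∑ v ∈ T, x v ^ 2 := by
    rw [Q_sum, mul_sum, ← sum_add_distrib]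
    refine sum_congr rfl fun v hv => ?_
    rw [Q_comm, Q_sum, sum_congr rfl fun w hw => by
      rw [Q_split hU hη f (h w hw) (h v hv) (mem_filter.mp hw).2 (mem_filter.mp hv).2
        (hx w (mem_filter.mp hw).1 v (mem_filter.mp hv).1)]]
    simp only [mul_add, sum_add_distrib, mul_ite, mul_zero, sum_ite_eq', hv, if_true, hb]
    ring
  have hrow : ∀ v ∈ T, (T.filter fun w => b v w ≠ 0).card ≤ D := by
    intro v hv
    have hZ : ∀ z ∈ (range (kk v)).powerset.image (cs (g v)), z ∈ U := fun z hz => by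
      obtain ⟨S, hS, rfl⟩ := mem_image.mp hz
      exact (h v hv).memc S (mem_powerset.mp hS)
    refine le_trans (card_le_card fun w hw => ?_)
      (hs ((range (kk v)).powerset.image (cs (g v))) ?_ fun z hz => hU.normsq (hZ z hz))
    · rw [mem_filter] at hw ⊢
      refine ⟨hw.1, fun hbl => hw.2 ((h w hw.1).blind hZ hbl ?_)⟩
      intro u u' s hs hz
      simp only [ev_P, mul_sum]
      refine sum_congr rfl fun S hS => ?_
      rw [r_comm u, r_comm u', hz _ (mem_image_of_mem _ hS), odd_mul (tr_odd hf M) hs]; ring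
    · refine card_image_le.trans (le_trans ?_ hR)
      rw [card_powerset, card_range]
      exact Nat.pow_le_pow_right (by norm_num) (h v hv).le
  have h1 := schur T T b x D D (2 ^ (2 ^ M + 1) * (2 ^ (2 ^ M + 1) * B))
    (fun v hv w hw => abs_ev_P (h w hw).le (by positivity) fun S _ =>
      abs_ev_P (h v hv).le hB0 fun S' _ => hB _) hrow
    (fun v hv => by simpa only [hb, Q_comm (tr M f) (P (kk v) (g v))] using hrow v hv)
  have h2 := sum_mul_sq_le_sq_mul_sq T x fun v => ∑ w ∈ T, x w * b v w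
  have hX : 0 ≤ ∑ v ∈ T, x v ^ 2 := sum_nonneg fun _ _ => sq_nonneg _
  have h3 : (∑ v ∈ T, x v * ∑ w ∈ T, x w * b v w) ^ 2
      ≤ (D * (2 ^ (2 ^ M + 1) * (2 ^ (2 ^ M + 1) * B)) * ∑ v ∈ T, x v ^ 2) ^ 2 :=
    h2.trans ((mul_le_mul_of_nonneg_left h1 hX).trans (le_of_eq (by ring)))
  have h4 := (abs_le_of_sq_le_sq' h3 (by positivity)).1
  rw [e]; linarith

theorem combine {Y S X K : ℝ} (hY : 0 ≤ Y) (hX : 0 ≤ X) (hK : 0 ≤ K) (h : S ^ 2 ≤ X * (K * Y)) :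
    Y / 2 - 2 * K * X ≤ Y + 2 * S := by
  have h1 : (2 * S) ^ 2 ≤ (Y / 2 + 2 * K * X) ^ 2 := by nlinarith [sq_nonneg (Y / 2 - 2 * K * X)]
  have h2 := (abs_le_of_sq_le_sq' h1 (by positivity)).1
  linarith

/-- The admissibility conditions on a family of tests. -/
def Tests (L : ℤ) (R D : ℕ) (U : Set E) {τ : Type} (t : Finset τ) (Z : τ → Finset E)
    (φ : τ → E → ℝ) : Prop :=
  (∀ i ∈ t, ↑(Z i) ⊆ U ∧ (Z i).card ≤ R ∧ IsTest (Z i) (φ i) ∧ ∀ u, |φ i u| ≤ D) ∧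
    ∀ u : E, ‖u‖ ^ 2 ≤ L + 1 → (t.filter fun i => φ i u ≠ 0).card ≤ D

/-- The induction hypothesis: the form of `f` dominates all sparse families of tests. -/
def H (L : ℤ) (f : ℤ → ℝ) : Prop :=
  ∀ R : ℕ, ∃ η : ℝ, 0 < η ∧ ∀ D : ℕ, ∃ K : ℝ, 0 ≤ K ∧ ∀ (E : Type) [NormedAddCommGroup E]
    [InnerProductSpace ℝ E] (U : Set E) (x : E →₀ ℝ) (τ : Type) (t : Finset τ) (Z : τ → Finset E)
    (φ : τ → E → ℝ), Good η R U → x ∈ Lev L U → Tests L R D U t Z φ →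
    0 ≤ Q f x x ∧ ∑ i ∈ t, ev (φ i) x ^ 2 ≤ K * Q f x x

theorem Q_congr {η : ℝ} {R : ℕ} {U : Set E} (hU : Good η R U) (hη : 100 * (R + 1) * η ≤ 1)
    {M : ℤ} {f f' : ℤ → ℝ} (h : ∀ m, |m| < M → f' m = f m) {y : E →₀ ℝ} (hy : y ∈ Lev (M - 1) U) :
    Q f' y y = Q f y y :=
  ev_congr fun u hu => ev_congr fun w hw => h _
    (hU.abs_r_lt hη (hy hu).1 (hy hw).1 (hy hu).2 (by have := (hy hw).2; omega))

theorem core (M : ℕ) (hM : 1 ≤ M) {f : ℤ → ℝ} (hf : ∀ m, f (-m) = -f m) (h : H (M - 1) f)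
    (R : ℕ) (hR1 : M ≤ R) (hR2 : 2 ^ (2 ^ M + 1) ≤ R) :
    ∃ η : ℝ, 0 < η ∧ 100 * (R + 1) * η ≤ 1 ∧ ∀ D : ℕ, ∃ C : ℝ, 0 ≤ C ∧ ∀ f' : ℤ → ℝ,
    (∀ m, f' (-m) = -f' m) → (∀ m : ℤ, |m| < M → f' m = f m) → ∀ (E : Type) [NormedAddCommGroup E]
    [InnerProductSpace ℝ E] (U : Set E) (x : E →₀ ℝ) (τ : Type) (t : Finset τ) (Z : τ → Finset E)
    (φ : τ → E → ℝ), Good η R U → x ∈ Lev M U → Red M x → Tests M R D U t Z φ →
    ∃ Y : ℝ, 0 ≤ Y ∧ Y / 2 + (f' M - C) * ∑ v ∈ top M x, x v ^ 2 ≤ Q f' x x ∧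
      ∑ i ∈ t, ev (φ i) x ^ 2 ≤ C * (Y + ∑ v ∈ top M x, x v ^ 2) := by
  obtain ⟨η1, h1, H1⟩ := h R
  obtain ⟨η', h2, h3, h4⟩ : ∃ η' : ℝ, 0 < η' ∧ η' ≤ η1 ∧ 100 * (R + 1) * η' ≤ 1 :=
    ⟨min η1 (1 / (100 * (R + 1))), by positivity, min_le_left _ _, by
      rw [mul_comm, ← le_div_iff₀ (by positivity)]; exact min_le_right _ _⟩
  obtain ⟨η, h5, h6, D0, Hs⟩ := split M R hM hR1 η' h2
  obtain ⟨B, hB⟩ := tr_bdd M f
  refine ⟨η, h5, le_trans (by gcongr) h4, fun D => ?_⟩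
  obtain ⟨K1, hK1, H2⟩ := H1 (D0 + 2 ^ (2 ^ M + 1) * B)
  obtain ⟨K2, hK2, H3⟩ := H1 D
  obtain ⟨c1, hc1⟩ : ∃ c : ℝ, c = D0 * (2 ^ (2 ^ M + 1) * (2 ^ (2 ^ M + 1) * B)) := ⟨_, rfl⟩
  obtain ⟨c2, hc2⟩ : ∃ c : ℝ,
    c = D0 * (2 ^ (2 ^ M + 1) * D : ℕ) * (2 ^ (2 ^ M + 1) * D) ^ 2 := ⟨_, rfl⟩
  have hc1' : 0 ≤ c1 := by rw [hc1]; positivity
  have hc2' : 0 ≤ c2 := by rw [hc2]; positivity
  refine ⟨2 * K1 + c1 + 2 * K2 + 2 * c2, by positivity,
    fun f' hf' hff E _ _ U x τ t Z φ hU hx hred ht => ?_⟩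
  classical
  obtain ⟨U', hU', hG, kk, g, hsp, hd⟩ := Hs E U (top M x) hU
    (fun v hv => hx (mem_filter.mp hv).1)
    (fun v hv w hw hvw => by
      have := (abs_lt.mp (hred v (mem_filter.mp hv).1 w (mem_filter.mp hw).1 hvw)).2; omega)
  have hy := low_mem hU' hx hd
  set T := top M x with hT
  set p := ∑ v ∈ T, x v • P (kk v) (g v) with hp
  set y := x - p with hy'
  have hxy : x = y + p := by rw [hy']; abel
  have hX : 0 ≤ ∑ v ∈ T, x v ^ 2 := sum_nonneg fun _ _ => sq_nonneg _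
  have etr : tr M f' = tr M f := funext fun m => by
    unfold tr; split_ifs with h; exacts [hff m h, rfl]
  set ψ : E → E → ℝ := fun v u => ∑ S ∈ (range (kk v)).powerset,
    (-1) ^ (kk v + S.card) * tr M f (∑ ω ∈ S.powerset, r (g v ω) u) with hψ
  have ht1 : Tests (M - 1) R (D0 + 2 ^ (2 ^ M + 1) * B) U' T
      (fun v => (range (kk v)).powerset.image (g v)) ψ := by
    refine ⟨fun v hv => ⟨?_, ?_, ?_, fun u => ?_⟩, fun u hu => ?_⟩
    · intro z hz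
      obtain ⟨S, hS, rfl⟩ := mem_image.mp hz
      exact (hd v hv).mem S (mem_powerset.mp hS)
    · refine card_image_le.trans (le_trans ?_ hR2)
      rw [card_powerset, card_range]
      exact Nat.pow_le_pow_right (by norm_num) (hd v hv).le
    · intro u u' s hs hz
      simp only [hψ, mul_sum]
      refine sum_congr rfl fun S hS => ?_
      rw [sum_congr rfl fun ω hω => hz _ (mem_coe.mpr (mem_image_of_mem _ (mem_powerset.mpr
        ((mem_powerset.mp hω).trans (mem_powerset.mp hS))))), ← mul_sum, odd_mul (tr_odd hf M) hs]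
      ring
    · refine (abs_sum_le_sum_abs _ _).trans ((sum_le_card_nsmul _ _ (B : ℝ) fun S hS => ?_).trans ?_)
      · rw [abs_mul, abs_neg_one_pow, one_mul]; exact hB _
      · rw [card_powerset, card_range, nsmul_eq_mul]
        have : (2 : ℝ) ^ kk v ≤ 2 ^ (2 ^ M + 1) := pow_le_pow_right₀ (by norm_num) (hd v hv).le
        push_cast
        nlinarith [Nat.cast_nonneg (α := ℝ) D0, Nat.cast_nonneg (α := ℝ) B]
    · have hR1' : (M : ℝ) ≤ R := by exact_mod_cast hR1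
      refine le_trans (le_trans (card_le_card fun v hv => ?_) (hsp {u}
        (by rw [card_singleton]; omega) (by simp at hu ⊢; linarith))) (Nat.le_add_right _ _)
      rw [mem_filter] at hv ⊢
      refine ⟨hv.1, fun ⟨j, hj, hb⟩ => hv.2 (alt_zero hj _ fun S hS hjS => ?_)⟩
      rw [sum_insert_blind hj _ (fun ω h1 h2 => by rw [r_comm]; exact hb ω h1 h2 u (by simp)) hS hjS]
  obtain ⟨a1, a2⟩ := H2 E U' y E T _ ψ (hG.mono h3) hy ht1
  obtain ⟨-, a3⟩ := H3 E U' y τ t Z φ (hG.mono h3) hy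
    ⟨fun i hi => ⟨(ht.1 i hi).1.trans hU', (ht.1 i hi).2⟩,
      fun u hu => ht.2 u (by push_cast at hu ⊢; linarith)⟩
  refine ⟨Q f y y, a1, ?_, ?_⟩
  · have b1 := top_bound hG h4 hR2 hf' (B := B) (by rw [etr]; exact hB) hred hd hsp
    have b2 : Q f' p y = ∑ v ∈ T, x v * ev (ψ v) y := by
      rw [hp, Q_sum]
      refine sum_congr rfl fun v hv => ?_
      rw [Q_comm, Q]
      congr 1
      refine ev_congr fun u hu => ?_
      rw [ev_P]
      refine sum_congr rfl fun S hS => ?_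
      have hS' := mem_powerset.mp hS
      have := hG.abs_r_lt h4 (hy hu).1 ((hd v hv).memc S hS') (hy hu).2
        ((hd v hv).lev (mem_filter.mp hv).2 hS')
      simp only [r_comm (g v _) u]
      rw [← (hd v hv).add u (hy hu).1 S hS', hff _ this, tr, if_pos this]
    have b3 := combine a1 hX hK1 ((sum_mul_sq_le_sq_mul_sq T x fun v => ev (ψ v) y).trans
      (mul_le_mul_of_nonneg_left a2 hX))
    rw [← hT, ← hp, ← hc1] at b1
    rw [hxy, Q_add, Q_congr hG h4 hff hy, b2, ← hxy]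
    nlinarith [mul_nonneg hK2 hX, mul_nonneg hc2' hX]
  · have b1 := schur t T (fun i v => ev (φ i) (P (kk v) (g v))) x D0 (2 ^ (2 ^ M + 1) * D)
      (2 ^ (2 ^ M + 1) * D)
      (fun i hi v hv => abs_ev_P (hd v hv).le (by positivity) fun S _ => (ht.1 i hi).2.2.2 _)
      (fun i hi => by
        refine le_trans (card_le_card fun v hv => ?_) (hsp (Z i) (ht.1 i hi).2.1
          fun z hz => hU.normsq ((ht.1 i hi).1 hz))
        rw [mem_filter] at hv ⊢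
        exact ⟨hv.1, fun hb => hv.2
          ((hd v hv.1).blind ((ht.1 i hi).1.trans hU') hb (ht.1 i hi).2.2.1)⟩)
      (fun v hv => by
        refine le_trans (card_le_card (t := (range (kk v)).powerset.biUnion fun S =>
          t.filter fun i => φ i (cs (g v) S) ≠ 0) fun i hi => ?_)
          ((card_biUnion_le_card_mul _ _ D fun S hS => ht.2 _ ?_).trans ?_)
        · rw [mem_filter, ev_P] at hi
          obtain ⟨S, hS, hS2⟩ := exists_ne_zero_of_sum_ne_zero hi.2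
          exact mem_biUnion.mpr ⟨S, hS, mem_filter.mpr ⟨hi.1, right_ne_zero_of_mul hS2⟩⟩
        · exact normsq_le ((hd v hv).lev (mem_filter.mp hv).2 (mem_powerset.mp hS))
        · rw [card_powerset, card_range]
          exact Nat.mul_le_mul_right _ (Nat.pow_le_pow_right (by norm_num) (hd v hv).le))
    rw [← hc2] at b1
    have b2 : ∑ i ∈ t, ev (φ i) x ^ 2 ≤ ∑ i ∈ t, (2 * ev (φ i) y ^ 2 +
        2 * (∑ v ∈ T, x v * ev (φ i) (P (kk v) (g v))) ^ 2) := by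
      refine sum_le_sum fun i _ => ?_
      have : ev (φ i) x = ev (φ i) y + ∑ v ∈ T, x v * ev (φ i) (P (kk v) (g v)) := by
        conv_lhs => rw [hxy]
        simp [hp, map_sum]
      rw [this]
      nlinarith [sq_nonneg (ev (φ i) y - ∑ v ∈ T, x v * ev (φ i) (P (kk v) (g v)))]
    rw [sum_add_distrib, ← mul_sum, ← mul_sum] at b2
    nlinarith [mul_nonneg hK1 hX, mul_nonneg hK2 hX, mul_nonneg hc1' hX, mul_nonneg hK1 a1,
      mul_nonneg hc1' a1, mul_nonneg hc2' a1]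

theorem step (M : ℕ) (hM : 1 ≤ M) {f : ℤ → ℝ} (hf : ∀ m, f (-m) = -f m) (h : H (M - 1) f) :
    ∃ F : ℝ, ∀ f' : ℤ → ℝ, (∀ m, f' (-m) = -f' m) → (∀ m : ℤ, |m| < M → f' m = f m) → F ≤ f' M →
      H M f' := by
  obtain ⟨η0, a1, a2, H0⟩ := core M hM hf h (M + 2 ^ (2 ^ M + 1)) (Nat.le_add_right _ _)
    (Nat.le_add_left _ _)
  obtain ⟨C0, a3, H0⟩ := H0 0
  refine ⟨C0 + 1, fun f' hf' hff hF R => ?_⟩
  obtain ⟨η1, b1, b2, H1⟩ := core M hM hf h (R + M + 2 ^ (2 ^ M + 1))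
    ((Nat.le_add_left _ _).trans (Nat.le_add_right _ _)) (Nat.le_add_left _ _)
  refine ⟨min η0 η1, by positivity, fun D => ?_⟩
  obtain ⟨C, b3, H1⟩ := H1 D
  refine ⟨C * (2 * (1 + C) + 1), by positivity, fun E _ _ U x τ t Z φ hU hx ht => ?_⟩
  have hU1 : Good η1 (R + M + 2 ^ (2 ^ M + 1)) U :=
    ⟨(hU.mono (min_le_right _ _)).1, fun u hu => (hU.2 u hu).trans
      (Nat.cast_le.mpr ((Nat.le_add_right _ _).trans (Nat.le_add_right _ _)))⟩
  obtain ⟨x', hx', hred, hev⟩ := hU1.reduce b2 M x hx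
  rw [Q_eq_of_ev hf' (fun u hu => (hx hu).1) (fun u hu => (hx' hu).1) hev,
    sum_congr rfl fun i hi => by rw [hev _ ((ht.1 i hi).2.2.1.mono (ht.1 i hi).1)]]
  obtain ⟨Y0, c1, c2, -⟩ := H0 f' hf' hff E {u | u ∈ U ∧ r u u ≤ M} x' Unit ∅ (fun _ => ∅)
    (fun _ _ => 0)
    ⟨fun u hu w hw => (hU.mono (min_le_left _ _)).1 u hu.1 w hw.1,
      fun u hu => hu.2.trans (Nat.cast_le.mpr (Nat.le_add_right _ _))⟩
    (fun u hu => ⟨hx' hu, (hx' hu).2⟩) hred ⟨by simp, by simp⟩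
  obtain ⟨Y, d1, d2, d3⟩ := H1 f' hf' hff E U x' τ t Z φ hU1 hx' hred
    ⟨fun i hi => ⟨(ht.1 i hi).1, (ht.1 i hi).2.1.trans
      ((Nat.le_add_right _ _).trans (Nat.le_add_right _ _)), (ht.1 i hi).2.2⟩, ht.2⟩
  have hX : 0 ≤ ∑ v ∈ top M x', x' v ^ 2 := sum_nonneg fun _ _ => sq_nonneg _
  have e1 : ∑ v ∈ top M x', x' v ^ 2 ≤ Q f' x' x' := by nlinarith
  have e2 : Y ≤ 2 * (1 + C) * Q f' x' x' := by nlinarith
  exact ⟨hX.trans e1, d3.trans (by rw [mul_assoc]; gcongr; linarith)⟩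

end Pool.Agent.MP_6cd9e0_an.H46
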