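import Mathlib
import Pool.Agent.MP_6cd9e0_an.H46.Step

/-! The base case: a function vanishing at `±1` that is positive on norms at most three. -/

namespace Pool.Agent.MP_6cd9e0_an.H46

open Finset
open scoped RealInnerProductSpace

variable {E : Type} [NormedAddCommGroup E] [InnerProductSpace ℝ E]

/-- The odd function with values `0, 1, C` at `1, 2, 3`. -/
noncomputable def f2 (C : ℝ) (m : ℤ) : ℝ :=
  if m = 2 then 1 else if m = -2 then -1 else if m = 3 then C else if m = -3 then -C else 0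

theorem f2_odd (C : ℝ) (m : ℤ) : f2 C (-m) = -f2 C m := by
  unfold f2; split_ifs <;> first | omega | simp

theorem f2_small (C : ℝ) {m : ℤ} (h : |m| < 2) : f2 C m = 0 := by
  rw [abs_lt] at h
  unfold f2; split_ifs <;> first | omega | rfl

theorem f2_le (C : ℝ) {m : ℤ} (h : |m| < 3) : |f2 C m| ≤ 1 := by
  rw [abs_lt] at h
  unfold f2; split_ifs <;> first | omega | simp

theorem Good.small {η : ℝ} {R : ℕ} {U : Set E} (h : Good η R U) (hη : η ≤ 1 / 100) {u c : E}
    (hu : u ∈ U) (hc : c ∈ U) (h1 : r u u ≤ 1) (h2 : r c c ≤ 3) : |r u c| < 2 := by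
  by_contra hcon
  have a1 := (abs_le.mp (h.1 u hu u hu)).2
  have a2 := (abs_le.mp (h.1 c hc c hc)).2
  have a3 := abs_le.mp (h.1 u hu c hc)
  have b1 : ((r u u : ℤ) : ℝ) ≤ 1 := by exact_mod_cast h1
  have b2 : ((r c c : ℤ) : ℝ) ≤ 3 := by exact_mod_cast h2
  have b3 : (2 : ℝ) ≤ |((r u c : ℤ) : ℝ)| := by exact_mod_cast not_lt.mp hcon
  have b4 := real_inner_mul_inner_self_le u c
  have b5 : ⟪u, u⟫ * ⟪c, c⟫ ≤ (1 + 1 / 100) * (3 + 1 / 100) :=
    mul_le_mul (by linarith) (by linarith) real_inner_self_nonneg (by norm_num)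
  rcases le_abs.mp b3 with b | b <;> nlinarith [a3.1, a3.2]

theorem Good.count {η : ℝ} {R : ℕ} {U : Set E} (h : Good η R U) (hη : η ≤ 1 / 100) {c : E}
    (hc : c ∈ U) (h2 : r c c ≤ 3) (W : Finset E) (hW : ∀ u ∈ W, u ∈ U ∧ r u u ≤ 2 ∧ 2 ≤ |r u c|)
    (hW2 : ∀ u ∈ W, ∀ w ∈ W, u ≠ w → |r u w| < 2) : W.card ≤ 7 := by
  have a2 := (abs_le.mp (h.1 c hc c hc)).2
  have b2 : ((r c c : ℤ) : ℝ) ≤ 3 := by exact_mod_cast h2
  rw [real_inner_self_eq_norm_sq] at a2
  have h1 := bessel W id (2 + 1 / 100) (1 + 1 / 100) (by norm_num) (by norm_num)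
    (fun u hu => by
      have a1 := (abs_le.mp (h.1 u (hW u hu).1 u (hW u hu).1)).2
      have b1 : ((r u u : ℤ) : ℝ) ≤ 2 := by exact_mod_cast (hW u hu).2.1
      rw [real_inner_self_eq_norm_sq] at a1
      simp only [id]; linarith)
    (fun u hu w hw huw => by
      have a1 := abs_le.mp (h.1 u (hW u hu).1 w (hW w hw).1)
      have b0 : |r u w| ≤ 1 := by have := hW2 u hu w hw huw; omega
      have b1 : |((r u w : ℤ) : ℝ)| ≤ 1 := by exact_mod_cast b0
      have b3 := abs_le.mp b1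
      simp only [id]
      rw [abs_le]; constructor <;> linarith [a1.1, a1.2, b3.1, b3.2]) c
  have h3 := card_nsmul_le_sum W (fun u => ⟪c, id u⟫ ^ 2) ((2 - 1 / 100) ^ 2) fun u hu => by
    have a1 := abs_le.mp (h.1 u (hW u hu).1 c hc)
    have b3 : (2 : ℝ) ≤ |((r u c : ℤ) : ℝ)| := by exact_mod_cast (hW u hu).2.2
    simp only [id]
    rw [real_inner_comm]
    rcases le_abs.mp b3 with b | b <;> nlinarith [a1.1, a1.2]
  rw [nsmul_eq_mul] at h3
  have h4 : ‖c‖ ^ 2 * (2 + 1 / 100 + W.card * (1 + 1 / 100))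
      ≤ (3 + 1 / 100) * (2 + 1 / 100 + W.card * (1 + 1 / 100)) := by gcongr; linarith
  have h5 : (W.card : ℝ) < 8 := by nlinarith
  have h6 : W.card < 8 := by exact_mod_cast h5
  omega

theorem base : ∃ C η : ℝ, 0 < η ∧ ∀ (E : Type) [NormedAddCommGroup E] [InnerProductSpace ℝ E]
    (U : Set E) (x : E →₀ ℝ), Good η 512 U → x ∈ Lev 3 U → 0 ≤ Q (f2 C) x x := by
  obtain ⟨η, h5, h6, D, Hs⟩ := split 3 512 (by norm_num) (by norm_num) (1 / 51300) (by norm_num)
  obtain ⟨K, hK⟩ : ∃ K : ℝ, K = (2 ^ 9 * 7 : ℕ) * D * (2 ^ 9 * 1) ^ 2 := ⟨_, rfl⟩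
  have hK0 : 0 ≤ K := by rw [hK]; positivity
  refine ⟨D * (2 ^ 9 * (2 ^ 9 * 1)) + 2 * K, η, h5, fun E _ _ U x0 hU hx0 => ?_⟩
  generalize hC : D * (2 ^ 9 * (2 ^ 9 * 1)) + 2 * K = C
  classical
  obtain ⟨x, hx, hred, hev⟩ := hU.reduce (by push_cast; linarith) 3 x0 hx0
  rw [Q_eq_of_ev (f2_odd C) (fun u hu => (hx0 hu).1) (fun u hu => (hx hu).1) hev]
  obtain ⟨U', hU', hG, kk, g, hsp, hd⟩ := Hs E U (top 3 x) hU
    (fun v hv => hx (mem_filter.mp hv).1)
    (fun v hv w hw hvw => by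
      have := (abs_lt.mp (hred v (mem_filter.mp hv).1 w (mem_filter.mp hw).1 hvw)).2; omega)
  have hy : _ ∈ Lev 2 U' := low_mem (M := 3) hU' hx hd
  have h4 : 100 * ((512 : ℕ) + 1) * (1 / 51300 : ℝ) ≤ 1 := by norm_num
  have b1 := top_bound (M := 3) hG h4 (by norm_num) (f2_odd C) (B := 1) (fun m => by
    unfold tr; split_ifs with h; exacts [f2_le C h, by simp]) hred hd hsp
  simp only [Nat.cast_ofNat] at hy b1
  set T := top 3 x with hT
  set p := ∑ v ∈ T, x v • P (kk v) (g v) with hp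
  set y := x - p with hy'
  have hxy : x = y + p := by rw [hy']; abel
  have hX : 0 ≤ ∑ v ∈ T, x v ^ 2 := sum_nonneg fun _ _ => sq_nonneg _
  obtain ⟨y', hy2, hred2, hev2⟩ := hG.reduce h4 2 y hy
  have hlev : ∀ v ∈ T, ∀ S ⊆ range (kk v), r (cs (g v) S) (cs (g v) S) ≤ 3 := fun v hv S hS =>
    (hd v hv).lev (mem_filter.mp hv).2 hS
  set ψ : E → E → ℝ := fun v u => ev (fun w => f2 C (r u w)) (P (kk v) (g v)) with hψ
  have c1 : Q (f2 C) y y = ∑ u ∈ top 2 y', y' u ^ 2 := by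
    rw [Q_eq_of_ev (f2_odd C) (fun u hu => (hy hu).1) (fun u hu => (hy2 hu).1) hev2, Q, ev_apply,
      top, sum_filter]
    refine sum_congr rfl fun u hu => ?_
    rw [ev_apply, sum_eq_single_of_mem u hu fun w hw hwu => by
      rw [f2_small C (hred2 u hu w hw hwu.symm), mul_zero]]
    split_ifs with h
    · rw [h]; simp [f2]; ring
    · have h1 := (hy2 hu).2
      have h2 := r_self_nonneg u
      rw [f2_small C (by rw [abs_lt]; omega)]; ring
  have c2 : Q (f2 C) p y = ∑ v ∈ T, x v * ∑ u ∈ top 2 y', y' u * ψ v u := by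
    rw [hp, Q_sum]
    refine sum_congr rfl fun v hv => ?_
    rw [Q_comm, Q, hev2, ev_apply, top, sum_filter]
    · congr 1
      refine sum_congr rfl fun u hu => ?_
      split_ifs with h
      · rfl
      · rw [ev_P, sum_eq_zero, mul_zero]
        intro S hS
        have h1 := (hy2 hu).2
        rw [f2_small C (hG.small (by norm_num) (hy2 hu).1 ((hd v hv).memc S (mem_powerset.mp hS))
          (by omega) (hlev v hv S (mem_powerset.mp hS))), mul_zero]
    · intro u u' s hs hz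
      simp only [ev_P, mul_sum]
      refine sum_congr rfl fun S hS => ?_
      rw [r_comm u, r_comm u', hz _ ((hd v hv).memc S (mem_powerset.mp hS)),
        odd_mul (f2_odd C) hs]
      ring
  have c3 := schur T (top 2 y') ψ y' (2 ^ 9 * 7) D (2 ^ 9 * 1)
    (fun v hv u hu => abs_ev_P (hd v hv).le (by norm_num) fun S hS => f2_le C
      (hG.abs_r_lt h4 (hy2 (mem_filter.mp hu).1).1 ((hd v hv).memc S hS)
        (hy2 (mem_filter.mp hu).1).2 (hlev v hv S hS)))
    (fun v hv => by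
      refine le_trans (card_le_card (t := (range (kk v)).powerset.biUnion fun S =>
        (top 2 y').filter fun u => 2 ≤ |r u (cs (g v) S)|) fun u hu => ?_)
        ((card_biUnion_le_card_mul _ _ 7 fun S hS => ?_).trans ?_)
      · rw [mem_filter, hψ] at hu
        simp only [ev_P] at hu
        obtain ⟨S, hS, hS2⟩ := exists_ne_zero_of_sum_ne_zero hu.2
        refine mem_biUnion.mpr ⟨S, hS, mem_filter.mpr ⟨hu.1, not_lt.mp fun h => ?_⟩⟩
        exact right_ne_zero_of_mul hS2 (f2_small C h)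
      · refine hG.count (by norm_num) ((hd v hv).memc S (mem_powerset.mp hS))
          (hlev v hv S (mem_powerset.mp hS)) _ (fun u hu => ?_) fun u hu w hw => ?_
        · have h1 := mem_filter.mp hu
          have h2 := hy2 (mem_filter.mp h1.1).1
          exact ⟨h2.1, h2.2, h1.2⟩
        · exact hred2 u (mem_filter.mp (mem_filter.mp hu).1).1 w
            (mem_filter.mp (mem_filter.mp hw).1).1
      · rw [card_powerset, card_range]
        exact Nat.mul_le_mul_right _ (Nat.pow_le_pow_right (by norm_num) (hd v hv).le))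
    (fun u hu => by
      have h2 := hy2 (mem_filter.mp hu).1
      refine le_trans (card_le_card fun v hv => ?_) (hsp {u} (by simp)
        (by simpa using hG.normsq h2.1))
      rw [mem_filter] at hv ⊢
      refine ⟨hv.1, fun hb => hv.2 ((hd v hv.1).blind (by simpa using h2.1) hb ?_)⟩
      intro a a' s hs hz
      simp only
      rw [hz u (by simp), odd_mul (f2_odd C) hs])
  rw [← hK] at c3
  have hY : 0 ≤ ∑ u ∈ top 2 y', y' u ^ 2 := sum_nonneg fun _ _ => sq_nonneg _
  have b3 := combine hY hX hK0 ((sum_mul_sq_le_sq_mul_sq T x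
    fun v => ∑ u ∈ top 2 y', y' u * ψ v u).trans (mul_le_mul_of_nonneg_left c3 hX))
  have e3 : f2 C 3 = C := by simp [f2]
  have e4 : Q (f2 C) x x = Q (f2 C) (y + p) (y + p) := by rw [← hxy]
  rw [e4, Q_add, c1, c2]
  rw [e3] at b1
  have e5 : C - D * (2 ^ 9 * (2 ^ 9 * 1)) = 2 * K := by linarith
  norm_num at b1 e5
  rw [e5] at b1
  linarith

end Pool.Agent.MP_6cd9e0_an.H46
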