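import Mathlib
import Pool.Agent.MP_6cd9e0_an.H46.Base

/-! Assembly: an odd positivity preserver on integer matrices with a forbidden triple of values. -/

namespace Pool.Agent.MP_6cd9e0_an.H46

open Finset Filter Topology
open scoped RealInnerProductSpace MatrixOrder

theorem eta_ok (R : ℕ) : 100 * ((R : ℝ) + 1) * (1 / (100 * (R + 1))) ≤ 1 :=
  le_of_eq (by field_simp)

theorem H_zero {f : ℤ → ℝ} (hf : ∀ m, f (-m) = -f m) : H 0 f := by
  intro R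
  refine ⟨1 / (100 * (R + 1)), by positivity, fun D => ⟨0, le_rfl, ?_⟩⟩
  intro E _ _ U x τ t Z φ hU hx ht
  have h0 : f 0 = 0 := by have := hf 0; rw [neg_zero] at this; linarith
  have key : ∀ u ∈ x.support, ∀ z ∈ U, r z u = 0 := fun u hu z hz => by
    apply r_eq
    have a1 := (abs_le.mp (hU.1 u (hx hu).1 u (hx hu).1)).2
    have a2 : ((r u u : ℤ) : ℝ) ≤ 0 := by exact_mod_cast (hx hu).2
    have a3 := hU.normsq hz
    have a4 := real_inner_mul_inner_self_le z u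
    have a5 : ⟪z, z⟫ * ⟪u, u⟫ ≤ (R + 1) * (1 / (100 * (R + 1))) := by
      rw [← real_inner_self_eq_norm_sq] at a3
      exact mul_le_mul a3 (by linarith) real_inner_self_nonneg (by positivity)
    have a6 := eta_ok R
    rw [Int.cast_zero, sub_zero, abs_lt]
    constructor <;> nlinarith
  have e1 : Q f x x = 0 := by
    rw [Q, ev_apply]
    refine sum_eq_zero fun u hu => ?_
    rw [ev_apply, sum_eq_zero fun w hw => by rw [key w hw u (hx hu).1, h0, mul_zero], mul_zero]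
  rw [e1]
  refine ⟨le_rfl, le_of_eq ?_⟩
  rw [mul_zero]
  refine sum_eq_zero fun i hi => ?_
  rw [ev_apply, sum_eq_zero fun u hu => ?_]
  · norm_num
  · have := (ht.1 i hi).2.2.1 u u (-1) (Or.inr rfl) fun z hz => by
      rw [key u hu z ((ht.1 i hi).1 hz)]; rfl
    have h2 : φ i u = 0 := by push_cast at this; linarith
    rw [h2, mul_zero]

theorem extend (M : ℕ) (hM : 1 ≤ M) {a : ℤ → ℝ} (ha : ∀ m, a (-m) = -a m) (h : H (M - 1) a) :
    ∃ a' : ℤ → ℝ, ((∀ m, a' (-m) = -a' m) ∧ H M a') ∧ ∀ m : ℤ, |m| < M → a' m = a m := by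
  obtain ⟨F, hF⟩ := step M hM ha h
  have h1 : ∀ m : ℤ, (fun m : ℤ => if m = M then F else if m = -M then -F else a m) (-m)
      = -(fun m : ℤ => if m = M then F else if m = -M then -F else a m) m := by
    intro m
    simp only
    split_ifs <;> first | omega | simp [ha]
  have h2 : ∀ m : ℤ, |m| < M →
      (fun m : ℤ => if m = M then F else if m = -M then -F else a m) m = a m := by
    intro m hm
    rw [abs_lt] at hm
    simp only
    rw [if_neg (by omega), if_neg (by omega)]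
  exact ⟨_, ⟨h1, hF _ h1 h2 (by simp)⟩, h2⟩

theorem H_three : ∃ a : ℤ → ℝ, (∀ m, a (-m) = -a m) ∧ H 3 a := by
  obtain ⟨a1, ⟨h1, h2⟩, -⟩ := extend 1 le_rfl (a := fun _ => 0) (by simp) (H_zero (by simp))
  obtain ⟨a2, ⟨h3, h4⟩, -⟩ := extend 2 (by norm_num) h1 h2
  obtain ⟨a3, h5, -⟩ := extend 3 (by norm_num) h3 h4
  exact ⟨a3, h5⟩

theorem Q_lin {E : Type} [NormedAddCommGroup E] [InnerProductSpace ℝ E] (ε : ℝ) (a b : ℤ → ℝ)
    (x : E →₀ ℝ) : Q (fun m => ε * a m + b m) x x = ε * Q a x x + Q b x x := by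
  simp only [Q, ev_apply, mul_sum, ← sum_add_distrib]
  exact sum_congr rfl fun u _ => sum_congr rfl fun w _ => by ring

theorem H_pert : ∃ C : ℝ, ∀ a : ℤ → ℝ, H 3 a → ∀ ε : ℝ, 0 < ε →
    H 3 fun m => ε * a m + f2 C m := by
  obtain ⟨C, η, h1, h2⟩ := base
  refine ⟨C, fun a ha ε hε R => ?_⟩
  obtain ⟨η1, h3, h4⟩ := ha R
  refine ⟨min η η1, by positivity, fun D => ?_⟩
  obtain ⟨K, h5, h6⟩ := h4 D
  refine ⟨K / ε, by positivity, fun E _ _ U x τ t Z φ hU hx ht => ?_⟩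
  obtain ⟨b1, b2⟩ := h6 E U x τ t Z φ (hU.mono (min_le_right _ _)) hx ht
  have b3 := h2 E {u | u ∈ U ∧ r u u ≤ 3} x
    ⟨fun u hu w hw => (hU.mono (min_le_left _ _)).1 u hu.1 w hw.1,
      fun u hu => hu.2.trans (by norm_num)⟩ (fun u hu => ⟨hx hu, (hx hu).2⟩)
  rw [Q_lin]
  refine ⟨by positivity, b2.trans ?_⟩
  rw [mul_add, ← mul_assoc, div_mul_cancel₀ _ hε.ne']
  have : 0 ≤ K / ε * Q (f2 C) x x := by positivity
  linarith

theorem pow_ineq (J k : ℕ) : (2 : ℝ) ^ k ≤ 2 ^ J * 1 ^ k + (2 / 3) ^ J * 3 ^ k := by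
  rw [one_pow, mul_one]
  rcases le_total k J with h | h
  · have : (2 : ℝ) ^ k ≤ 2 ^ J := pow_le_pow_right₀ (by norm_num) h
    have h2 : (0 : ℝ) ≤ (2 / 3) ^ J * 3 ^ k := by positivity
    linarith
  · have : ((2 : ℝ) / 3) ^ k ≤ (2 / 3) ^ J := pow_le_pow_of_le_one (by norm_num) (by norm_num) h
    have h2 : (2 : ℝ) ^ k = (2 / 3) ^ k * 3 ^ k := by rw [← mul_pow]; norm_num
    have h3 : ((2 : ℝ) / 3) ^ k * 3 ^ k ≤ (2 / 3) ^ J * 3 ^ k := by gcongr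
    have h4 : (0 : ℝ) ≤ 2 ^ J := by positivity
    linarith

theorem start : ∃ a : ℤ → ℝ, ((∀ m, a (-m) = -a m) ∧ H 3 a) ∧
    ∃ J : ℕ, 2 ^ J * a 1 + (2 / 3) ^ J * a 3 < a 2 := by
  obtain ⟨a, h1, h2⟩ := H_three
  obtain ⟨C, hC⟩ := H_pert
  obtain ⟨J, hJ⟩ := exists_pow_lt_of_lt_one (x := 1 / (2 * (|C| + 1))) (y := (2 / 3 : ℝ))
    (by positivity) (by norm_num)
  obtain ⟨B, hB⟩ : ∃ B : ℝ, B = 2 ^ J * a 1 + (2 / 3) ^ J * a 3 - a 2 := ⟨_, rfl⟩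
  refine ⟨fun m => 1 / (2 * (|B| + 1)) * a m + f2 C m, ⟨fun m => ?_, hC a h2 _ (by positivity)⟩,
    J, ?_⟩
  · simp only [h1, f2_odd]; ring
  · have e1 : f2 C 1 = 0 := by simp [f2]
    have e2 : f2 C 2 = 1 := by simp [f2]
    have e3 : f2 C 3 = C := by simp [f2]
    simp only [e1, e2, e3]
    have b1 : 1 / (2 * (|B| + 1)) * B < 1 / 2 := by
      rw [div_mul_eq_mul_div, div_lt_iff₀ (by positivity)]
      linarith [le_abs_self B]
    have b2 : (2 / 3 : ℝ) ^ J * C ≤ 1 / 2 := by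
      rw [lt_div_iff₀ (by positivity)] at hJ
      have : (0 : ℝ) < (2 / 3) ^ J := by positivity
      nlinarith [le_abs_self C]
    rw [hB] at b1
    rw [← hB] at b1
    have b3 : 1 / (2 * (|B| + 1)) * B = 2 ^ J * (1 / (2 * (|B| + 1)) * a 1)
        + (2 / 3) ^ J * (1 / (2 * (|B| + 1)) * a 3) - 1 / (2 * (|B| + 1)) * a 2 := by
      generalize 1 / (2 * (|B| + 1)) = e
      rw [hB]; ring
    linarith

theorem tower {a : ℤ → ℝ} (h1 : ∀ m, a (-m) = -a m) (h2 : H 3 a) :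
    ∃ f : ℤ → ℝ, (∀ m : ℤ, |m| ≤ 3 → f m = a m) ∧
      ∀ n : ℕ, ∃ b : ℤ → ℝ, H (n + 3) b ∧ ∀ m : ℤ, |m| ≤ n + 3 → f m = b m := by
  have ex : ∀ (n : ℕ) (b : {b : ℤ → ℝ // (∀ m, b (-m) = -b m) ∧ H (n + 3) b}),
      ∃ c : {b : ℤ → ℝ // (∀ m, b (-m) = -b m) ∧ H ((n + 1 : ℕ) + 3) b},
        ∀ m : ℤ, |m| ≤ n + 3 → c.1 m = b.1 m := fun n b => by
    obtain ⟨c, h3, h4⟩ := extend (n + 4) (by omega) b.2.1
      (by convert b.2.2 using 1; push_cast; ring)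
    exact ⟨⟨c, h3.1, by convert h3.2 using 1; push_cast; ring⟩, fun m hm => h4 m (by push_cast; omega)⟩
  choose nx hnx using ex
  let s : ∀ n : ℕ, {b : ℤ → ℝ // (∀ m, b (-m) = -b m) ∧ H (n + 3) b} :=
    fun n => Nat.rec ⟨a, h1, by simpa using h2⟩ nx n
  have agree : ∀ n k : ℕ, ∀ m : ℤ, |m| ≤ n + 3 → (s (n + k)).1 m = (s n).1 m := by
    intro n k m hm
    induction k with
    | zero => rfl
    | succ k ih =>
      rw [← ih]
      exact hnx (n + k) (s (n + k)) m (by push_cast; omega)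
  have key : ∀ (n : ℕ) (m : ℤ), |m| ≤ n + 3 → (s m.natAbs).1 m = (s n).1 m := fun n m hm => by
    rw [← agree n m.natAbs m hm, Nat.add_comm n, agree m.natAbs n m (by simp)]
  exact ⟨fun m => (s m.natAbs).1 m, fun m hm => key 0 m (by simpa using hm),
    fun n => ⟨_, (s n).2.2, key n⟩⟩

theorem gram {n : ℕ} {A : Matrix (Fin n) (Fin n) ℝ} (hA : A.PosSemidef) :
    ∃ v : Fin n → EuclideanSpace ℝ (Fin n), ∀ i j, ⟪v i, v j⟫ = A i j := by
  obtain ⟨B, rfl⟩ := CStarAlgebra.nonneg_iff_eq_star_mul_self.mp hA.nonneg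
  refine ⟨fun i => WithLp.toLp 2 fun k => B k i, fun i j => ?_⟩
  simp [PiLp.inner_apply, Matrix.mul_apply, mul_comm]

theorem preserves {f : ℤ → ℝ}
    (h : ∀ n : ℕ, ∃ b : ℤ → ℝ, H (n + 3) b ∧ ∀ m : ℤ, |m| ≤ n + 3 → f m = b m)
    (n : ℕ) (A : Matrix (Fin n) (Fin n) ℤ) (hA : (A.map (Int.cast : ℤ → ℝ)).PosSemidef) :
    (A.map f).PosSemidef := by
  obtain ⟨v, hv⟩ := gram hA
  have hr : ∀ i j, r (v i) (v j) = A i j := fun i j => r_eq (by simp [hv])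
  refine Matrix.PosSemidef.of_dotProduct_mulVec_nonneg ?_ fun c => ?_
  · ext i j
    simp only [Matrix.conjTranspose_apply, Matrix.map_apply, star_trivial]
    rw [← hr, r_comm, hr]
  obtain ⟨N, hN⟩ : ∃ N : ℕ, ∀ i, A i i ≤ N := by
    obtain ⟨N, hN⟩ := (Set.finite_range fun i => A i i).bddAbove
    exact ⟨N.toNat, fun i => (hN ⟨i, rfl⟩).trans (Int.self_le_toNat N)⟩
  obtain ⟨b, hb, hfb⟩ := h N
  obtain ⟨η, h1, h2⟩ := hb N
  obtain ⟨K, -, h3⟩ := h2 0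
  have hG : ∀ η : ℝ, 0 ≤ η → Good η N (Set.range v) := fun η hη =>
    ⟨by rintro _ ⟨i, rfl⟩ _ ⟨j, rfl⟩; simpa [hr, hv] using hη,
      by rintro _ ⟨i, rfl⟩; rw [hr]; exact hN i⟩
  have hx : ∑ i, Finsupp.single (v i) (c i) ∈ Lev (N + 3) (Set.range v) :=
    Submodule.sum_mem _ fun i _ => Finsupp.single_mem_supported _ _
      ⟨⟨i, rfl⟩, by rw [hr]; have := hN i; omega⟩
  have h4 := (h3 _ _ _ Unit ∅ (fun _ => ∅) (fun _ _ => 0) (hG η h1.le) hx ⟨by simp, by simp⟩).1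
  rw [← Q_congr (M := N + 4) (hG _ (by positivity)) (eta_ok N) (f' := f)
    (fun m hm => hfb m (by omega)) (by convert hx using 2; ring)] at h4
  simp only [Q, map_sum, ev_single, hr] at h4
  simpa only [dotProduct, Matrix.mulVec, Matrix.map_apply, star_trivial, mul_comm] using h4

theorem main : ∃ f : ℤ → ℝ,
    (∀ (n : ℕ) (A : Matrix (Fin n) (Fin n) ℤ), (A.map (Int.cast : ℤ → ℝ)).PosSemidef →
      (A.map f).PosSemidef) ∧
    ¬ ∃ c : ℕ → ℝ, (∀ k, 0 ≤ c k) ∧ ∀ m : ℤ,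
      Tendsto (fun N => ∑ k ∈ range N, c k * (m : ℝ) ^ k) atTop (𝓝 (f m)) := by
  obtain ⟨a, ⟨h1, h2⟩, J, hJ⟩ := start
  obtain ⟨f, h3, h4⟩ := tower h1 h2
  refine ⟨f, preserves h4, fun ⟨c, hc, hf⟩ => ?_⟩
  rw [← h3 1 (by norm_num), ← h3 2 (by norm_num), ← h3 3 (by norm_num)] at hJ
  refine absurd (le_of_tendsto_of_tendsto' (hf 2)
    (((hf 1).const_mul (2 ^ J)).add ((hf 3).const_mul ((2 / 3) ^ J))) fun N => ?_) (not_le.mpr hJ)
  rw [mul_sum, mul_sum, ← sum_add_distrib]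
  refine sum_le_sum fun k _ => ?_
  push_cast
  nlinarith [mul_le_mul_of_nonneg_left (pow_ineq J k) (hc k)]

end Pool.Agent.MP_6cd9e0_an.H46
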